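import Pool.Agent.IST25.FE

/-!
# The symbols of the negative parts are small: `M ≤ κ U`

`U_+ ↔ (2 / j) nP j`, `U_- ↔ (2 / j) nM j` and `-4 |t|` (rates `2 j`).
-/

namespace Pool.Agent.IST25

open MeasureTheory Set Filter Topology

/-- `sqrt 2 / 2` -/
noncomputable def rr : ℝ := Real.sqrt 2 / 2

theorem rr_low : 0.7071 ≤ rr := by
  unfold rr
  have : (1.4142 : ℝ) ≤ Real.sqrt 2 := Real.le_sqrt_of_sq_le (by norm_num)
  linarith

theorem rr_up : rr ≤ 0.70711 := by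
  unfold rr
  have : Real.sqrt 2 ≤ 1.41422 := Real.sqrt_le_iff.mpr ⟨by norm_num, by norm_num⟩
  linarith

/-- coefficients of `U_+` -/
noncomputable def nP (j : ℕ) : ℝ :=
  match j % 8 with
  | 1 => rr
  | 2 => 1
  | 3 => -rr
  | 4 => 6
  | 5 => -rr
  | 6 => 1
  | 7 => rr
  | _ => 0

/-- coefficients of `U_-` (without `-4 |t|`) -/
noncomputable def nM (j : ℕ) : ℝ :=
  match j % 8 with
  | 1 => -(3 * rr - 2)
  | 2 => -1
  | 3 => 3 * rr + 2
  | 4 => 0
  | 5 => 3 * rr + 2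
  | 6 => -1
  | 7 => -(3 * rr - 2)
  | _ => 2

theorem sy_two (j : ℕ) (hj : 1 ≤ j) (w : ℝ) :
    sy (2 * j) w = j * (1 / ((j : ℝ) ^ 2 + (Real.pi * w) ^ 2)) := by
  unfold sy
  have hj' : (0 : ℝ) < j := by exact_mod_cast hj
  have h1 : 0 < (j : ℝ) ^ 2 + (Real.pi * w) ^ 2 := by positivity
  have h2 : (2 * (j : ℝ)) ^ 2 + (2 * Real.pi * w) ^ 2 = 4 * ((j : ℝ) ^ 2 + (Real.pi * w) ^ 2) := by
    ring
  rw [h2]
  field_simp
  ring

/-- the weight `κ a - a^-` -/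
noncomputable def wt (κ : ℝ) (n : ℕ → ℝ) (j : ℕ) : ℝ := κ * n j - max (-(n j)) 0

/-- first block, plus -/
theorem blk0P {X : ℝ} (hX : 0 ≤ X) :
    0 ≤ 0.2 * 0.7071 * (1 / (1 + X) + 1 / (49 + X)) + 0.2 * (1 / (4 + X) + 1 / (36 + X)) +
      1.2 * (1 / (16 + X)) - 1.2 * 0.70711 * (1 / (9 + X) + 1 / (25 + X)) := by
  have e : 0.2 * 0.7071 * (1 / (1 + X) + 1 / (49 + X)) + 0.2 * (1 / (4 + X) + 1 / (36 + X)) +
      1.2 * (1 / (16 + X)) - 1.2 * 0.70711 * (1 / (9 + X) + 1 / (25 + X)) =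
      ((58201044768/15625)*X^0 + (29648882132/15625)*X^1 + (3844422078/15625)*X^2 +
        (1347437239/62500)*X^3 + (11719501/12500)*X^4 + (1286733/62500)*X^5 +
        (11611/62500)*X^6) /
        ((1 + X) * (4 + X) * (9 + X) * (16 + X) * (25 + X) * (36 + X) * (49 + X)) := by
    have h1 : (1 + X) ≠ 0 := by positivity
    have h2 : (4 + X) ≠ 0 := by positivity
    have h3 : (9 + X) ≠ 0 := by positivity
    have h4 : (16 + X) ≠ 0 := by positivity
    have h5 : (25 + X) ≠ 0 := by positivity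
    have h6 : (36 + X) ≠ 0 := by positivity
    have h7 : (49 + X) ≠ 0 := by positivity
    field_simp
    ring
  rw [e]
  positivity

/-- first block, minus -/
theorem blk0M {X : ℝ} (hX : 0 ≤ X) :
    0 ≤ 0.34 * (1 / (0.01 + X) + 1 / (64 + X)) + 0.34 * 4.1213 * (1 / (9 + X) + 1 / (25 + X)) -
      1.34 * 0.12133 * (1 / (1 + X) + 1 / (49 + X)) - 1.34 * (1 / (4 + X) + 1 / (36 + X)) := by
  have e : 0.34 * (1 / (0.01 + X) + 1 / (64 + X)) +
      0.34 * 4.1213 * (1 / (9 + X) + 1 / (25 + X)) -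
      1.34 * 0.12133 * (1 / (1 + X) + 1 / (49 + X)) - 1.34 * (1 / (4 + X) + 1 / (36 + X)) =
      ((13367168630442/390625)*X^0 + X * ((55433126163927/3125000)*X^0 +
        (-194134048824073/31250000)*X^1 + (144758254578083/250000000)*X^2) +
        (6380113116329/50000000)*X^4 + (1298428691917/250000000)*X^5 +
        (20516084999/250000000)*X^6 + (1193299/2500000)*X^7) /
        ((0.01 + X) * (64 + X) * (9 + X) * (25 + X) * (1 + X) * (49 + X) * (4 + X) *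
          (36 + X)) := by
    have h1 : (1 + X) ≠ 0 := by positivity
    have h2 : (4 + X) ≠ 0 := by positivity
    have h3 : (9 + X) ≠ 0 := by positivity
    have h4 : (0.01 + X) ≠ 0 := by positivity
    have h5 : (25 + X) ≠ 0 := by positivity
    have h6 : (36 + X) ≠ 0 := by positivity
    have h7 : (49 + X) ≠ 0 := by positivity
    have h8 : (64 + X) ≠ 0 := by positivity
    field_simp
    ring
  rw [e]
  have h : 0 ≤ (55433126163927/3125000)*X^0 +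
        (-194134048824073/31250000)*X^1 + (144758254578083/250000000)*X^2 := by
    nlinarith [sq_nonneg (X - 5.364)]
  positivity

/-- later blocks, plus: `a = 8 m + 4 ≥ 12` -/
theorem blkP {a X : ℝ} (ha : 12 ≤ a) (hX : 0 ≤ X) :
    0 ≤ 0.2 * 0.7071 * (1 / ((a - 3) ^ 2 + X) + 1 / ((a + 3) ^ 2 + X)) +
      0.2 * (1 / ((a - 2) ^ 2 + X) + 1 / ((a + 2) ^ 2 + X)) + 1.2 * (1 / (a ^ 2 + X)) -
      1.2 * 0.70711 * (1 / ((a - 1) ^ 2 + X) + 1 / ((a + 1) ^ 2 + X)) := by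
  set u := a ^ 2 + X with hu
  have hu1 : 144 ≤ u := by nlinarith
  have ha2 : a ^ 2 ≤ u := by linarith
  have pr : ∀ d : ℝ, 0 ≤ d → d ≤ 4 → 0 < (a - d) ^ 2 + X ∧ 0 < (a + d) ^ 2 + X := by
    intro d hd hd2
    constructor <;> nlinarith
  -- lower bound of a pair
  have low : ∀ d : ℝ, 0 ≤ d → d ≤ 4 →
      2 / (u + d ^ 2) ≤ 1 / ((a - d) ^ 2 + X) + 1 / ((a + d) ^ 2 + X) := by
    intro d hd hd2
    obtain ⟨p1, p2⟩ := pr d hd hd2
    rw [div_add_div _ _ p1.ne' p2.ne', div_le_div_iff₀ (by positivity) (by positivity)]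
    have e1 : (a - d) ^ 2 + X = u + d ^ 2 - 2 * a * d := by rw [hu]; ring
    have e2 : (a + d) ^ 2 + X = u + d ^ 2 + 2 * a * d := by rw [hu]; ring
    rw [e1, e2]
    nlinarith [sq_nonneg (a * d)]
  -- upper bound of a pair
  have up : 1 / ((a - 1) ^ 2 + X) + 1 / ((a + 1) ^ 2 + X) ≤ 2 * (u + 1) / (u - 1) ^ 2 := by
    obtain ⟨p1, p2⟩ := pr 1 (by norm_num) (by norm_num)
    have hu2 : 0 < u - 1 := by linarith
    rw [div_add_div _ _ p1.ne' p2.ne', div_le_div_iff₀ (by positivity) (by positivity)]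
    have e1 : (a - 1) ^ 2 + X = u + 1 - 2 * a := by rw [hu]; ring
    have e2 : (a + 1) ^ 2 + X = u + 1 + 2 * a := by rw [hu]; ring
    rw [e1, e2]
    nlinarith [mul_nonneg (show 0 ≤ u + 1 by linarith) (sub_nonneg.mpr ha2)]
  have l3 := low 3 (by norm_num) (by norm_num)
  have l2 := low 2 (by norm_num) (by norm_num)
  have key : 0 ≤ 0.2 * 0.7071 * (2 / (u + 3 ^ 2)) + 0.2 * (2 / (u + 2 ^ 2)) + 1.2 * (1 / u) -
      1.2 * 0.70711 * (2 * (u + 1) / (u - 1) ^ 2) := by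
    obtain ⟨v, hv0, hv⟩ : ∃ v, 0 ≤ v ∧ u = 144 + v := ⟨u - 144, by linarith, by ring⟩
    rw [hv]
    have e : 0.2 * 0.7071 * (2 / (144 + v + 3 ^ 2)) + 0.2 * (2 / (144 + v + 2 ^ 2)) +
        1.2 * (1 / (144 + v)) - 1.2 * 0.70711 * (2 * (144 + v + 1) / (144 + v - 1) ^ 2) =
        (0.2 * 0.7071 * 2 * ((144 + v + 4) * (144 + v) * (143 + v) ^ 2) +
          0.4 * ((144 + v + 9) * (144 + v) * (143 + v) ^ 2) +
          1.2 * ((144 + v + 9) * (144 + v + 4) * (143 + v) ^ 2) -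
          1.2 * 0.70711 * 2 * (145 + v) * ((144 + v + 9) * (144 + v + 4) * (144 + v))) /
          ((144 + v + 9) * (144 + v + 4) * (144 + v) * (143 + v) ^ 2) := by
      have h1 : (144 + v + 3 ^ 2) ≠ 0 := by positivity
      have h2 : (144 + v + 2 ^ 2) ≠ 0 := by positivity
      have h3 : (144 + v) ≠ 0 := by positivity
      have h4 : (144 + v - 1) ≠ 0 := by linarith
      have h5 : (144 + v + 9) ≠ 0 := by positivity
      have h6 : (144 + v + 4) ≠ 0 := by positivity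
      have h7 : (143 + v) ≠ 0 := by positivity
      rw [show 144 + v + 3 ^ 2 = 144 + v + 9 by ring, show 144 + v + 2 ^ 2 = 144 + v + 4 by ring,
        show 144 + v - 1 = 143 + v by ring, show 144 + v + 1 = 145 + v by ring]
      field_simp
      ring
    rw [e]
    apply div_nonneg _ (by positivity)
    ring_nf
    positivity
  linarith

/-- later blocks, minus: `a = 8 m + 4 ≥ 12` -/
theorem blkM {a X : ℝ} (ha : 12 ≤ a) (hX : 0 ≤ X) :
    0 ≤ 0.34 * (1 / ((a - 4) ^ 2 + X) + 1 / ((a + 4) ^ 2 + X)) +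
      0.34 * 4.1213 * (1 / ((a - 1) ^ 2 + X) + 1 / ((a + 1) ^ 2 + X)) -
      1.34 * 0.12133 * (1 / ((a - 3) ^ 2 + X) + 1 / ((a + 3) ^ 2 + X)) -
      1.34 * (1 / ((a - 2) ^ 2 + X) + 1 / ((a + 2) ^ 2 + X)) := by
  set u := a ^ 2 + X with hu
  have hu1 : 144 ≤ u := by nlinarith
  have ha2 : a ^ 2 ≤ u := by linarith
  have pr : ∀ d : ℝ, 0 ≤ d → d ≤ 4 → 0 < (a - d) ^ 2 + X ∧ 0 < (a + d) ^ 2 + X := by
    intro d hd hd2
    constructor <;> nlinarith
  have low : ∀ d : ℝ, 0 ≤ d → d ≤ 4 →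
      2 / (u + d ^ 2) ≤ 1 / ((a - d) ^ 2 + X) + 1 / ((a + d) ^ 2 + X) := by
    intro d hd hd2
    obtain ⟨p1, p2⟩ := pr d hd hd2
    rw [div_add_div _ _ p1.ne' p2.ne', div_le_div_iff₀ (by positivity) (by positivity)]
    have e1 : (a - d) ^ 2 + X = u + d ^ 2 - 2 * a * d := by rw [hu]; ring
    have e2 : (a + d) ^ 2 + X = u + d ^ 2 + 2 * a * d := by rw [hu]; ring
    rw [e1, e2]
    nlinarith [sq_nonneg (a * d)]
  have up : ∀ d : ℝ, 0 ≤ d → d ≤ 4 → 1 / ((a - d) ^ 2 + X) + 1 / ((a + d) ^ 2 + X) ≤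
      2 * (u + d ^ 2) / (u - d ^ 2) ^ 2 := by
    intro d hd hd2
    obtain ⟨p1, p2⟩ := pr d hd hd2
    have hu2 : 0 < u - d ^ 2 := by nlinarith
    rw [div_add_div _ _ p1.ne' p2.ne', div_le_div_iff₀ (by positivity) (by positivity)]
    have e1 : (a - d) ^ 2 + X = u + d ^ 2 - 2 * a * d := by rw [hu]; ring
    have e2 : (a + d) ^ 2 + X = u + d ^ 2 + 2 * a * d := by rw [hu]; ring
    rw [e1, e2]
    nlinarith [mul_nonneg (mul_nonneg (show 0 ≤ u + d ^ 2 by positivity) (sq_nonneg d))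
      (sub_nonneg.mpr ha2)]
  have l4 := low 4 (by norm_num) (by norm_num)
  have l1 := low 1 (by norm_num) (by norm_num)
  have u3 := up 3 (by norm_num) (by norm_num)
  have u2 := up 2 (by norm_num) (by norm_num)
  have key : 0 ≤ 0.34 * (2 / (u + 4 ^ 2)) + 0.34 * 4.1213 * (2 / (u + 1 ^ 2)) -
      1.34 * 0.12133 * (2 * (u + 3 ^ 2) / (u - 3 ^ 2) ^ 2) -
      1.34 * (2 * (u + 2 ^ 2) / (u - 2 ^ 2) ^ 2) := by
    obtain ⟨v, hv0, hv⟩ : ∃ v, 0 ≤ v ∧ u = 144 + v := ⟨u - 144, by linarith, by ring⟩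
    rw [hv]
    have e : 0.34 * (2 / (144 + v + 4 ^ 2)) + 0.34 * 4.1213 * (2 / (144 + v + 1 ^ 2)) -
      1.34 * 0.12133 * (2 * (144 + v + 3 ^ 2) / (144 + v - 3 ^ 2) ^ 2) -
      1.34 * (2 * (144 + v + 2 ^ 2) / (144 + v - 2 ^ 2) ^ 2) =
        (0.34 * 2 * ((145 + v) * (135 + v) ^ 2 * (140 + v) ^ 2) +
         0.34 * 4.1213 * 2 * ((160 + v) * (135 + v) ^ 2 * (140 + v) ^ 2) -
         1.34 * 0.12133 * 2 * (153 + v) * ((160 + v) * (145 + v) * (140 + v) ^ 2) -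
         1.34 * 2 * (148 + v) * ((160 + v) * (145 + v) * (135 + v) ^ 2)) /
          ((160 + v) * (145 + v) * (135 + v) ^ 2 * (140 + v) ^ 2) := by
      have h1 : (160 + v) ≠ 0 := by positivity
      have h2 : (145 + v) ≠ 0 := by positivity
      have h3 : (135 + v) ≠ 0 := by positivity
      have h4 : (140 + v) ≠ 0 := by positivity
      rw [show 144 + v + 4 ^ 2 = 160 + v by ring, show 144 + v + 1 ^ 2 = 145 + v by ring,
        show 144 + v - 3 ^ 2 = 135 + v by ring, show 144 + v - 2 ^ 2 = 140 + v by ring,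
        show 144 + v + 3 ^ 2 = 153 + v by ring, show 144 + v + 2 ^ 2 = 148 + v by ring]
      field_simp
    rw [e]
    apply div_nonneg _ (by positivity)
    ring_nf
    positivity
  linarith

end Pool.Agent.IST25
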