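import Mathlib

/-!
# Certificate, part A: one exponential kernel along a complex curve

`ζ : ℝ → ℂ` with derivative `g`, `h ≤ Re g`, `h |g|² ≤ Re g` on `[a, b]`.  For every real density `ν`
on `[a, b]` and every `c > 0`, with
`Eζ = ∫∫ exp (-c |ζ x - ζ y|) ν ν` (the sign of `ζ x - ζ y` is that of `x - y`):
`h E₀ ≤ Re Eζ` and `h Re Eζ ≤ E₀`.
-/

namespace Pool.Agent.IST25

open MeasureTheory intervalIntegral Set

variable {a b c h : ℝ} {ζ g : ℝ → ℂ} {ν : ℝ → ℝ}

/-- the left potential -/
noncomputable def Gl (a c : ℝ) (ζ : ℝ → ℂ) (ν : ℝ → ℝ) (x : ℝ) : ℂ :=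
  Complex.exp (-(c * ζ x)) * ∫ y in a..x, Complex.exp (c * ζ y) * ν y

/-- the right potential -/
noncomputable def Gr (b c : ℝ) (ζ : ℝ → ℂ) (ν : ℝ → ℝ) (x : ℝ) : ℂ :=
  Complex.exp (c * ζ x) * ∫ y in x..b, Complex.exp (-(c * ζ y)) * ν y

/-- the potential -/
noncomputable def ph (a b c : ℝ) (ζ : ℝ → ℂ) (ν : ℝ → ℝ) (x : ℝ) : ℂ := Gl a c ζ ν x + Gr b c ζ ν x

/-- its derivative divided by `c g` -/
noncomputable def ps (a b c : ℝ) (ζ : ℝ → ℂ) (ν : ℝ → ℝ) (x : ℝ) : ℂ := Gr b c ζ ν x - Gl a c ζ ν x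

/-- the form -/
noncomputable def EE (a b c : ℝ) (ζ : ℝ → ℂ) (ν : ℝ → ℝ) : ℂ := ∫ x in a..b, ph a b c ζ ν x * ν x

/-- curve data -/
structure Crv (ζ g : ℝ → ℂ) : Prop where
  der : ∀ x, HasDerivAt ζ (g x) x
  cont : Continuous g

theorem Crv.ct (hz : Crv ζ g) : Continuous ζ :=
  continuous_iff_continuousAt.mpr fun x => (hz.der x).continuousAt

theorem Gl_der (hz : Crv ζ g) (hν : Continuous ν) (x : ℝ) :
    HasDerivAt (Gl a c ζ ν) (-(c * g x) * Gl a c ζ ν x + ν x) x := by
  have hc : Continuous fun y : ℝ => Complex.exp (c * ζ y) * (ν y : ℂ) := by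
    have := hz.ct
    fun_prop
  have h1 : HasDerivAt (fun x => ∫ y in a..x, Complex.exp (c * ζ y) * (ν y : ℂ))
      (Complex.exp (c * ζ x) * (ν x : ℂ)) x :=
    intervalIntegral.integral_hasDerivAt_right (hc.intervalIntegrable _ _)
      (hc.stronglyMeasurableAtFilter _ _) hc.continuousAt
  have h2 : HasDerivAt (fun x => Complex.exp (-(c * ζ x)))
      (Complex.exp (-(c * ζ x)) * -(c * g x)) x := ((hz.der x).const_mul (c : ℂ)).neg.cexp
  have h3 := h2.mul h1
  have e : Complex.exp (-(c * ζ x)) * (Complex.exp (c * ζ x) * (ν x : ℂ)) = ν x := by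
    rw [← mul_assoc, ← Complex.exp_add]
    simp
  rw [e] at h3
  refine h3.congr_deriv ?_
  unfold Gl
  ring

theorem Gr_der (hz : Crv ζ g) (hν : Continuous ν) (x : ℝ) :
    HasDerivAt (Gr b c ζ ν) (c * g x * Gr b c ζ ν x - ν x) x := by
  have hc : Continuous fun y : ℝ => Complex.exp (-(c * ζ y)) * (ν y : ℂ) := by
    have := hz.ct
    fun_prop
  have h1 : HasDerivAt (fun x => ∫ y in x..b, Complex.exp (-(c * ζ y)) * (ν y : ℂ))
      (-(Complex.exp (-(c * ζ x)) * (ν x : ℂ))) x :=
    intervalIntegral.integral_hasDerivAt_left (hc.intervalIntegrable _ _)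
      (hc.stronglyMeasurableAtFilter _ _) hc.continuousAt
  have h2 : HasDerivAt (fun x => Complex.exp (c * ζ x))
      (Complex.exp (c * ζ x) * (c * g x)) x := ((hz.der x).const_mul (c : ℂ)).cexp
  have h3 := h2.mul h1
  have e : Complex.exp (c * ζ x) * (Complex.exp (-(c * ζ x)) * (ν x : ℂ)) = ν x := by
    rw [← mul_assoc, ← Complex.exp_add]
    simp
  rw [mul_neg, e] at h3
  refine h3.congr_deriv ?_
  unfold Gr
  ring

theorem ph_der (hz : Crv ζ g) (hν : Continuous ν) (x : ℝ) :
    HasDerivAt (ph a b c ζ ν) (c * g x * ps a b c ζ ν x) x := by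
  have h := (Gl_der (a := a) (c := c) hz hν x).add (Gr_der (b := b) (c := c) hz hν x)
  refine h.congr_deriv ?_
  unfold ps
  ring

theorem ps_der (hz : Crv ζ g) (hν : Continuous ν) (x : ℝ) :
    HasDerivAt (ps a b c ζ ν) (c * g x * ph a b c ζ ν x - 2 * ν x) x := by
  have h := (Gr_der (b := b) (c := c) hz hν x).sub (Gl_der (a := a) (c := c) hz hν x)
  refine h.congr_deriv ?_
  unfold ph
  ring

theorem ph_cont (hz : Crv ζ g) (hν : Continuous ν) : Continuous (ph a b c ζ ν) :=
  continuous_iff_continuousAt.mpr fun x => (ph_der hz hν x).continuousAt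

theorem ps_cont (hz : Crv ζ g) (hν : Continuous ν) : Continuous (ps a b c ζ ν) :=
  continuous_iff_continuousAt.mpr fun x => (ps_der hz hν x).continuousAt

theorem Gl_a : Gl a c ζ ν a = 0 := by simp [Gl]

theorem Gr_b : Gr b c ζ ν b = 0 := by simp [Gr]

/-- the mixed identity for two curves, second one conjugated or not -/
theorem mixed {ζ₁ g₁ ζ₂ g₂ : ℝ → ℂ} (h1 : Crv ζ₁ g₁) (h2 : Crv ζ₂ g₂) (hν : Continuous ν) :
    2 * EE a b c ζ₁ ν = c * (∫ x in a..b, (g₁ x * ps a b c ζ₁ ν x * ps a b c ζ₂ ν x +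
      g₂ x * ph a b c ζ₁ ν x * ph a b c ζ₂ ν x)) + Gl a c ζ₁ ν b * Gl a c ζ₂ ν b +
        Gr b c ζ₁ ν a * Gr b c ζ₂ ν a := by
  have hd : ∀ x, HasDerivAt (fun x => ph a b c ζ₁ ν x * ps a b c ζ₂ ν x)
      (c * (g₁ x * ps a b c ζ₁ ν x * ps a b c ζ₂ ν x + g₂ x * ph a b c ζ₁ ν x * ph a b c ζ₂ ν x) -
        2 * (ph a b c ζ₁ ν x * ν x)) x := by
    intro x
    have h := (ph_der (a := a) (b := b) (c := c) h1 hν x).mul
      (ps_der (a := a) (b := b) (c := c) h2 hν x)
    refine h.congr_deriv ?_
    ring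
  have c1 := ph_cont (a := a) (b := b) (c := c) h1 hν
  have c2 := ps_cont (a := a) (b := b) (c := c) h1 hν
  have c3 := ph_cont (a := a) (b := b) (c := c) h2 hν
  have c4 := ps_cont (a := a) (b := b) (c := c) h2 hν
  have c5 := h1.cont
  have c6 := h2.cont
  have hI := intervalIntegral.integral_eq_sub_of_hasDerivAt (a := a) (b := b)
    (fun x _ => hd x) (by
      apply Continuous.intervalIntegrable
      fun_prop)
  rw [intervalIntegral.integral_sub (by
      apply Continuous.intervalIntegrable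
      fun_prop) (by
      apply Continuous.intervalIntegrable
      fun_prop), intervalIntegral.integral_const_mul, intervalIntegral.integral_const_mul] at hI
  have e1 : ph a b c ζ₁ ν b * ps a b c ζ₂ ν b = -(Gl a c ζ₁ ν b * Gl a c ζ₂ ν b) := by
    unfold ph ps
    rw [Gr_b, Gr_b]
    ring
  have e2 : ph a b c ζ₁ ν a * ps a b c ζ₂ ν a = Gr b c ζ₁ ν a * Gr b c ζ₂ ν a := by
    unfold ph ps
    rw [Gl_a, Gl_a]
    ring
  rw [e1, e2] at hI
  unfold EE
  linear_combination (-1 : ℂ) * hI

/-! ### the conjugate curve -/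

theorem Crv.conj (hz : Crv ζ g) : Crv (fun x => star (ζ x)) (fun x => star (g x)) :=
  ⟨fun x => (hz.der x).star, hz.cont.star⟩

theorem star_int {f : ℝ → ℂ} (u v : ℝ) :
    star (∫ y in u..v, f y) = ∫ y in u..v, star (f y) := by
  simp only [intervalIntegral, star_sub]
  congr 1 <;> exact (integral_conj).symm

theorem star_exp (z : ℂ) : star (Complex.exp z) = Complex.exp (star z) :=
  (Complex.exp_conj z).symm

theorem star_ofReal (r : ℝ) : star (r : ℂ) = r := Complex.conj_ofReal r

theorem Gl_star (x : ℝ) : Gl a c (fun x => star (ζ x)) ν x = star (Gl a c ζ ν x) := by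
  unfold Gl
  rw [star_mul', star_int]
  congr 1
  · rw [star_exp, star_neg, star_mul', star_ofReal]
  · apply intervalIntegral.integral_congr
    intro y _
    simp only
    rw [star_mul', star_exp, star_mul', star_ofReal, star_ofReal]

theorem Gr_star (x : ℝ) : Gr b c (fun x => star (ζ x)) ν x = star (Gr b c ζ ν x) := by
  unfold Gr
  rw [star_mul', star_int]
  congr 1
  · rw [star_exp, star_mul', star_ofReal]
  · apply intervalIntegral.integral_congr
    intro y _
    simp only
    rw [star_mul', star_exp, star_neg, star_mul', star_ofReal, star_ofReal]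

theorem ph_star (x : ℝ) : ph a b c (fun x => star (ζ x)) ν x = star (ph a b c ζ ν x) := by
  unfold ph
  rw [Gl_star, Gr_star, star_add]

theorem ps_star (x : ℝ) : ps a b c (fun x => star (ζ x)) ν x = star (ps a b c ζ ν x) := by
  unfold ps
  rw [Gl_star, Gr_star, star_sub]

/-- `|z|²` -/
noncomputable def nq (z : ℂ) : ℝ := Complex.normSq z

/-- the energy as an integral over the curve -/
theorem EE_re (hz : Crv ζ g) (hν : Continuous ν) :
    2 * (EE a b c ζ ν).re = c * (∫ x in a..b, (g x).re * (Complex.normSq (ps a b c ζ ν x) +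
      Complex.normSq (ph a b c ζ ν x))) + Complex.normSq (Gl a c ζ ν b) +
        Complex.normSq (Gr b c ζ ν a) := by
  have h := congrArg Complex.re (mixed (a := a) (b := b) (c := c) hz hz.conj hν)
  have c1 := ph_cont (a := a) (b := b) (c := c) hz hν
  have c2 := ps_cont (a := a) (b := b) (c := c) hz hν
  have c3 := hz.cont
  have hI : IntervalIntegrable (fun x => g x * ps a b c ζ ν x * star (ps a b c ζ ν x) +
      star (g x) * ph a b c ζ ν x * star (ph a b c ζ ν x)) volume a b := by
    apply Continuous.intervalIntegrable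
    fun_prop
  have e1 : (∫ x in a..b, (g x * ps a b c ζ ν x * ps a b c (fun x => star (ζ x)) ν x +
      star (g x) * ph a b c ζ ν x * ph a b c (fun x => star (ζ x)) ν x)).re =
      ∫ x in a..b, (g x).re * (Complex.normSq (ps a b c ζ ν x) +
      Complex.normSq (ph a b c ζ ν x)) := by
    simp only [ph_star, ps_star]
    have h2 := Complex.reCLM.intervalIntegral_comp_comm hI
    rw [Complex.reCLM_apply] at h2
    rw [← h2]
    apply intervalIntegral.integral_congr
    intro x _
    simp only [Complex.reCLM_apply, Complex.add_re, mul_assoc]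
    have e3 : ∀ z : ℂ, z * star z = (Complex.normSq z : ℂ) := fun z => Complex.mul_conj z
    rw [e3, e3, Complex.re_mul_ofReal, Complex.re_mul_ofReal]
    simp only [Complex.star_def, Complex.conj_re]
    ring
  rw [Complex.add_re, Complex.add_re, Complex.re_ofReal_mul, e1, Gl_star, Gr_star] at h
  have e3 : ∀ z : ℂ, z * star z = (Complex.normSq z : ℂ) := fun z => Complex.mul_conj z
  rw [e3, e3, Complex.ofReal_re, Complex.ofReal_re] at h
  rw [← h]
  simp

/-! ### the straight curve -/

theorem crv_id : Crv (fun x => (x : ℂ)) (fun _ => (1 : ℂ)) :=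
  ⟨fun x => by simpa using (hasDerivAt_id x).ofReal_comp, continuous_const⟩

/-- cross identity, straight curve first -/
theorem mix_a (hz : Crv ζ g) (hν : Continuous ν) :
    2 * EE a b c (fun x => (x : ℂ)) ν = c * (∫ x in a..b, (ps a b c (fun x => (x : ℂ)) ν x *
      ps a b c ζ ν x + g x * ph a b c (fun x => (x : ℂ)) ν x * ph a b c ζ ν x)) +
        Gl a c (fun x => (x : ℂ)) ν b * Gl a c ζ ν b + Gr b c (fun x => (x : ℂ)) ν a *
          Gr b c ζ ν a := by
  have h := mixed (a := a) (b := b) (c := c) crv_id hz hν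
  simpa using h

/-- cross identity, straight curve second -/
theorem mix_b (hz : Crv ζ g) (hν : Continuous ν) :
    2 * EE a b c ζ ν = c * (∫ x in a..b, (g x * ps a b c ζ ν x *
      ps a b c (fun x => (x : ℂ)) ν x + ph a b c ζ ν x * ph a b c (fun x => (x : ℂ)) ν x)) +
        Gl a c ζ ν b * Gl a c (fun x => (x : ℂ)) ν b + Gr b c ζ ν a *
          Gr b c (fun x => (x : ℂ)) ν a := by
  have h := mixed (a := a) (b := b) (c := c) hz crv_id hν
  simpa using h

/-- the energy of the straight curve -/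
theorem EE0 (hν : Continuous ν) :
    2 * (EE a b c (fun x => (x : ℂ)) ν).re = c * (∫ x in a..b,
      (Complex.normSq (ps a b c (fun x => (x : ℂ)) ν x) +
      Complex.normSq (ph a b c (fun x => (x : ℂ)) ν x))) +
        Complex.normSq (Gl a c (fun x => (x : ℂ)) ν b) +
        Complex.normSq (Gr b c (fun x => (x : ℂ)) ν a) := by
  have h := EE_re (a := a) (b := b) (c := c) crv_id hν
  simpa using h

theorem re_mul_le (z w : ℂ) {t : ℝ} (ht : 0 < t) :
    2 * (z * w).re ≤ t * Complex.normSq z + t⁻¹ * Complex.normSq w := by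
  have h1 : (z * w).re ≤ ‖z‖ * ‖w‖ := by
    rw [← norm_mul]
    exact Complex.re_le_norm _
  have h2 : 2 * (‖z‖ * ‖w‖) ≤ t * ‖z‖ ^ 2 + t⁻¹ * ‖w‖ ^ 2 := by
    have h3 : 0 ≤ (Real.sqrt t * ‖z‖ - (Real.sqrt t)⁻¹ * ‖w‖) ^ 2 := sq_nonneg _
    have h4 : Real.sqrt t ≠ 0 := (Real.sqrt_pos.mpr ht).ne'
    have h5 : Real.sqrt t ^ 2 = t := Real.sq_sqrt ht.le
    have e : (Real.sqrt t * ‖z‖ - (Real.sqrt t)⁻¹ * ‖w‖) ^ 2 =
        Real.sqrt t ^ 2 * ‖z‖ ^ 2 + (Real.sqrt t ^ 2)⁻¹ * ‖w‖ ^ 2 - 2 * (‖z‖ * ‖w‖) := by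
      field_simp
      ring
    rw [e, h5] at h3
    linarith
  rw [Complex.normSq_eq_norm_sq, Complex.normSq_eq_norm_sq]
  linarith

theorem re_int {f : ℝ → ℂ} (hf : Continuous f) :
    (∫ x in a..b, f x).re = ∫ x in a..b, (f x).re := by
  have h2 := Complex.reCLM.intervalIntegral_comp_comm (hf.intervalIntegrable (μ := volume) a b)
  simpa using h2.symm

/-- **one kernel**: `h E₀ ≤ Re Eζ`, `h Re Eζ ≤ E₀` -/
theorem formA (hab : a ≤ b) (hc : 0 ≤ c) (hz : Crv ζ g) (hν : Continuous ν) (hh : 0 < h)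
    (h1 : ∀ x ∈ Icc a b, h ≤ (g x).re)
    (h2 : ∀ x ∈ Icc a b, h * Complex.normSq (g x) ≤ (g x).re) :
    h * (EE a b c (fun x => (x : ℂ)) ν).re ≤ (EE a b c ζ ν).re ∧
      h * (EE a b c ζ ν).re ≤ (EE a b c (fun x => (x : ℂ)) ν).re := by
  have hle1 : h ≤ 1 := by
    have ha : a ∈ Icc a b := ⟨le_rfl, hab⟩
    have k1 := h1 a ha
    have k2 := h2 a ha
    rw [Complex.normSq_apply] at k2
    by_contra hc'
    push Not at hc'
    nlinarith [mul_pos hh hh, mul_self_nonneg (g a).im, mul_nonneg hh.le (mul_self_nonneg (g a).im),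
      mul_le_mul k1 k1 hh.le (by linarith)]
  have c1 := ph_cont (a := a) (b := b) (c := c) hz hν
  have c2 := ps_cont (a := a) (b := b) (c := c) hz hν
  have c3 := hz.cont
  have c4 := ph_cont (a := a) (b := b) (c := c) crv_id hν
  have c5 := ps_cont (a := a) (b := b) (c := c) crv_id hν
  have cn : ∀ {f : ℝ → ℂ}, Continuous f → Continuous fun x => Complex.normSq (f x) :=
    fun hf => Complex.continuous_normSq.comp hf
  have cr : ∀ {f : ℝ → ℂ}, Continuous f → Continuous fun x => (f x).re :=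
    fun hf => Complex.continuous_re.comp hf
  have m0 := EE0 (a := a) (b := b) (c := c) hν
  have m1 := EE_re (a := a) (b := b) (c := c) hz hν
  have ma := congrArg Complex.re (mix_a (a := a) (b := b) (c := c) hz hν)
  have mb := congrArg Complex.re (mix_b (a := a) (b := b) (c := c) hz hν)
  rw [Complex.add_re, Complex.add_re, Complex.re_ofReal_mul, re_int (by fun_prop)] at ma mb
  have e2 : ∀ z : ℂ, ((2 : ℂ) * z).re = 2 * z.re := fun z => by simp
  rw [e2] at ma mb
  set G0 := Gl a c (fun x => (x : ℂ)) ν b with hG0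
  set H0 := Gr b c (fun x => (x : ℂ)) ν a with hH0
  set G1 := Gl a c ζ ν b with hG1
  set H1 := Gr b c ζ ν a with hH1
  set p0 := ph a b c (fun x => (x : ℂ)) ν with hp0
  set s0 := ps a b c (fun x => (x : ℂ)) ν with hs0
  set p1 := ph a b c ζ ν with hp1
  set s1 := ps a b c ζ ν with hs1
  set I0 := ∫ x in a..b, (Complex.normSq (s0 x) + Complex.normSq (p0 x)) with hI0
  set I1 := ∫ x in a..b, (g x).re * (Complex.normSq (s1 x) + Complex.normSq (p1 x)) with hI1
  have hninv : 0 < h⁻¹ := inv_pos.mpr hh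
  have hone : 1 ≤ h⁻¹ := (one_le_inv₀ hh).mpr hle1
  constructor
  · -- first inequality
    have hint : (∫ x in a..b, (s0 x * s1 x + g x * p0 x * p1 x).re) ≤
        1 / 2 * I0 + h⁻¹ / 2 * I1 := by
      have A0 : Continuous fun x => 1 / 2 * (Complex.normSq (s0 x) + Complex.normSq (p0 x)) :=
        continuous_const.mul ((cn c5).add (cn c4))
      have A1 : Continuous fun x => h⁻¹ / 2 * ((g x).re * (Complex.normSq (s1 x) +
          Complex.normSq (p1 x))) := continuous_const.mul ((cr c3).mul ((cn c2).add (cn c1)))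
      rw [hI0, hI1, ← intervalIntegral.integral_const_mul, ← intervalIntegral.integral_const_mul,
        ← intervalIntegral.integral_add (A0.intervalIntegrable _ _) (A1.intervalIntegrable _ _)]
      apply intervalIntegral.integral_mono_on hab
      · exact (cr (by fun_prop)).intervalIntegrable _ _
      · exact (A0.add A1).intervalIntegrable _ _
      intro x hx
      have q1 := re_mul_le (s0 x) (s1 x) one_pos
      have q2 := re_mul_le (p0 x) (g x * p1 x) one_pos
      rw [inv_one, one_mul, one_mul] at q1 q2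
      rw [Complex.normSq_mul] at q2
      have e : (s0 x * s1 x + g x * p0 x * p1 x).re = (s0 x * s1 x).re +
          (p0 x * (g x * p1 x)).re := by
        rw [Complex.add_re]
        congr 2
        ring
      rw [e]
      have q3 : Complex.normSq (s1 x) ≤ h⁻¹ * ((g x).re * Complex.normSq (s1 x)) := by
        rw [← mul_assoc]
        apply le_mul_of_one_le_left (Complex.normSq_nonneg _)
        rw [inv_mul_eq_div, one_le_div hh]
        exact h1 x hx
      have q4 : Complex.normSq (g x) * Complex.normSq (p1 x) ≤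
          h⁻¹ * ((g x).re * Complex.normSq (p1 x)) := by
        rw [← mul_assoc]
        apply mul_le_mul_of_nonneg_right _ (Complex.normSq_nonneg _)
        rw [inv_mul_eq_div, le_div_iff₀ hh]
        linarith [h2 x hx]
      linarith
    have b1 := re_mul_le G0 G1 one_pos
    have b2 := re_mul_le H0 H1 one_pos
    rw [inv_one, one_mul, one_mul] at b1 b2
    have b3 : Complex.normSq G1 ≤ h⁻¹ * Complex.normSq G1 :=
      le_mul_of_one_le_left (Complex.normSq_nonneg _) hone
    have b4 : Complex.normSq H1 ≤ h⁻¹ * Complex.normSq H1 :=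
      le_mul_of_one_le_left (Complex.normSq_nonneg _) hone
    have b5 := mul_le_mul_of_nonneg_left hint hc
    have key : (EE a b c (fun x => (x : ℂ)) ν).re ≤ h⁻¹ * (EE a b c ζ ν).re := by
      have : h⁻¹ * (2 * (EE a b c ζ ν).re) = h⁻¹ * (c * I1 + Complex.normSq G1 +
        Complex.normSq H1) := by rw [m1]
      nlinarith
    calc h * (EE a b c (fun x => (x : ℂ)) ν).re ≤ h * (h⁻¹ * (EE a b c ζ ν).re) :=
          mul_le_mul_of_nonneg_left key hh.le
      _ = (EE a b c ζ ν).re := by field_simp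
  · -- second inequality
    have hint : (∫ x in a..b, (g x * s1 x * s0 x + p1 x * p0 x).re) ≤
        1 / 2 * I1 + h⁻¹ / 2 * I0 := by
      have A0 : Continuous fun x => h⁻¹ / 2 * (Complex.normSq (s0 x) + Complex.normSq (p0 x)) :=
        continuous_const.mul ((cn c5).add (cn c4))
      have A1 : Continuous fun x => 1 / 2 * ((g x).re * (Complex.normSq (s1 x) +
          Complex.normSq (p1 x))) := continuous_const.mul ((cr c3).mul ((cn c2).add (cn c1)))
      rw [hI0, hI1, ← intervalIntegral.integral_const_mul, ← intervalIntegral.integral_const_mul,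
        ← intervalIntegral.integral_add (A1.intervalIntegrable _ _) (A0.intervalIntegrable _ _)]
      apply intervalIntegral.integral_mono_on hab
      · exact (cr (by fun_prop)).intervalIntegrable _ _
      · exact (A1.add A0).intervalIntegrable _ _
      intro x hx
      have q1 := re_mul_le (g x * s1 x) (s0 x) hh
      have q2 := re_mul_le (p1 x) (p0 x) hh
      rw [Complex.normSq_mul] at q1
      rw [Complex.add_re]
      have q3 : h * (Complex.normSq (g x) * Complex.normSq (s1 x)) ≤
          (g x).re * Complex.normSq (s1 x) := by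
        rw [← mul_assoc]
        exact mul_le_mul_of_nonneg_right (h2 x hx) (Complex.normSq_nonneg _)
      have q4 : h * Complex.normSq (p1 x) ≤ (g x).re * Complex.normSq (p1 x) :=
        mul_le_mul_of_nonneg_right (h1 x hx) (Complex.normSq_nonneg _)
      linarith
    have b1 := re_mul_le G1 G0 hh
    have b2 := re_mul_le H1 H0 hh
    have b3 : h * Complex.normSq G1 ≤ Complex.normSq G1 :=
      mul_le_of_le_one_left (Complex.normSq_nonneg _) hle1
    have b4 : h * Complex.normSq H1 ≤ Complex.normSq H1 :=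
      mul_le_of_le_one_left (Complex.normSq_nonneg _) hle1
    have b5 := mul_le_mul_of_nonneg_left hint hc
    have key : (EE a b c ζ ν).re ≤ h⁻¹ * (EE a b c (fun x => (x : ℂ)) ν).re := by
      have : h⁻¹ * (2 * (EE a b c (fun x => (x : ℂ)) ν).re) = h⁻¹ * (c * I0 +
        Complex.normSq G0 + Complex.normSq H0) := by rw [m0]
      nlinarith
    calc h * (EE a b c ζ ν).re ≤ h * (h⁻¹ * (EE a b c (fun x => (x : ℂ)) ν).re) :=
          mul_le_mul_of_nonneg_left key hh.le
      _ = (EE a b c (fun x => (x : ℂ)) ν).re := by field_simp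

end Pool.Agent.IST25
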