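import Pool.Agent.IST25.Ser

/-!
# The certificates

`certP`: `(h - (1 / h - h) / 5) U_+ ≤ Re (U_+ ∘ ζ)`, `certM`: `(h - 0.34 (1 / h - h)) U_- ≤ Re (U_- ∘ ζ)`.
-/

namespace Pool.Agent.IST25

open MeasureTheory Set Filter Topology

variable {c h B : ℝ} {ζ g : ℝ → ℂ} {ν : ℝ → ℝ} {n : ℕ → ℝ}

theorem ng_bd (hn : ∀ j, |n j| ≤ 6) : ∀ j, |ng n j| ≤ 6 := by
  intro j
  unfold ng
  rw [abs_of_nonneg (le_max_right _ _)]
  exact max_le ((neg_le_abs _).trans (hn j)) (by norm_num)

/-- the combination `κ U - M` as a series -/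
theorem comb_sum (κ : ℝ) (hν : Den B ν) (hn : ∀ j, |n j| ≤ 6) :
    HasSum (fun j : ℕ => (2 / ((j : ℝ) + 1) * (κ * n (j + 1) - ng n (j + 1))) *
      E0 (2 * (j + 1)) ν)
      (κ * (ES n (fun x => (x : ℂ)) ν).re - (ES (ng n) (fun x => (x : ℂ)) ν).re) := by
  have h1 := ((ES0 hν hn).mul_left κ).sub (ES0 hν (ng_bd hn))
  have e : (fun j : ℕ => κ * (2 / ((j : ℝ) + 1) * n (j + 1) * E0 (2 * ((j : ℝ) + 1)) ν) -
      2 / ((j : ℝ) + 1) * ng n (j + 1) * E0 (2 * ((j : ℝ) + 1)) ν) =
      (fun j : ℕ => (2 / ((j : ℝ) + 1) * (κ * n (j + 1) - ng n (j + 1))) *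
      E0 (2 * (j + 1)) ν) := by
    ext j
    ring
  rw [e] at h1
  exact h1

theorem range8 {f : ℕ → ℝ} {s : ℝ} (hf : HasSum f s) :
    Tendsto (fun M : ℕ => ∑ j ∈ Finset.range (8 * M), f j) atTop (𝓝 s) :=
  hf.tendsto_sum_nat.comp (tendsto_id.const_mul_atTop' (by norm_num : 0 < 8))

/-- plus: `M ≤ U / 5` -/
theorem step2P (hν : Den B ν) :
    (ES (ng nP) (fun x => (x : ℂ)) ν).re ≤ 0.2 * (ES nP (fun x => (x : ℂ)) ν).re := by
  have h1 := range8 (comb_sum 0.2 hν nP_bd)
  have h2 : ∀ M : ℕ, 0 ≤ ∑ j ∈ Finset.range (8 * M), (2 / ((j : ℝ) + 1) *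
      (0.2 * nP (j + 1) - ng nP (j + 1))) * E0 (2 * (j + 1)) ν := by
    intro M
    refine comb_nonneg (Finset.range (8 * M))
      (fun j : ℕ => 2 / ((j : ℝ) + 1) * (0.2 * nP (j + 1) - ng nP (j + 1)))
      (fun j : ℕ => 2 * ((j : ℝ) + 1)) (fun j _ => by positivity) (fun w => ?_) hν.int
    simp only [term_eq]
    rw [← Finset.mul_sum]
    exact mul_nonneg (by norm_num) (symP M w)
  have := ge_of_tendsto' h1 h2
  linarith

/-- **certificate, plus mode** -/
theorem certP (hz : CrvH h ζ g) (hν : Den B ν) :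
    (h - 0.2 * (1 / h - h)) * (ES nP (fun x => (x : ℂ)) ν).re ≤ (ES nP ζ ν).re := by
  have h1 := step1 hz hν nP_bd
  have h2 := step2P hν
  have hh := hz.pos
  have h3 : 0 ≤ 1 / h - h := by
    have := le_one hz
    rw [sub_nonneg, le_div_iff₀ hh]
    nlinarith
  have h4 := mul_le_mul_of_nonneg_left h2 h3
  linarith

/-! ### minus mode -/

/-- with a small rate in place of `-4 |t|` -/
theorem step2c (hν : Den B ν) (hc : 0 < c) (hc2 : c ≤ 0.2) :
    (ES (ng nM) (fun x => (x : ℂ)) ν).re ≤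
      0.34 * (4 / c * E0 c ν + (ES nM (fun x => (x : ℂ)) ν).re) := by
  have h1 := range8 (comb_sum 0.34 hν nM_bd)
  have h2 : ∀ M : ℕ, 0 ≤ 0.34 * (4 / c * E0 c ν) +
      ∑ j ∈ Finset.range (8 * M), (2 / ((j : ℝ) + 1) *
      (0.34 * nM (j + 1) - ng nM (j + 1))) * E0 (2 * (j + 1)) ν := by
    intro M
    have h3 := comb_nonneg (Finset.range (8 * M + 1))
      (fun j : ℕ => if j = 0 then 0.34 * (4 / c) else
        2 / (j : ℝ) * (0.34 * nM j - ng nM j))
      (fun j : ℕ => if j = 0 then c else 2 * (j : ℝ)) (fun j _ => by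
        split_ifs with h0
        · exact hc
        · have : 0 < j := Nat.pos_of_ne_zero h0
          positivity) (fun w => by
        rw [Finset.sum_range_succ']
        simp only [Nat.add_eq_zero_iff, one_ne_zero, and_false, if_false, if_true]
        push_cast
        simp only [term_eq]
        rw [← Finset.mul_sum]
        have k1 := symM M w (e := c ^ 2 / 4) (by positivity) (by nlinarith)
        have k2 : 0.34 * (4 / c) * sy c w = 2 * (0.34 * (1 / (c ^ 2 / 4 +
            (Real.pi * w) ^ 2))) := by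
          unfold sy
          have e1 : 0 < c ^ 2 + (2 * Real.pi * w) ^ 2 := by positivity
          have e2 : 0 < c ^ 2 / 4 + (Real.pi * w) ^ 2 := by positivity
          field_simp
          ring
        rw [k2]
        have k3 : 0 ≤ 0.34 * (1 / ((8 * (M : ℝ)) ^ 2 + (if M = 0 then c ^ 2 / 4 else 0) +
            (Real.pi * w) ^ 2)) := by
          have : 0 ≤ (if M = 0 then c ^ 2 / 4 else 0) := by
            split_ifs <;> positivity
          positivity
        linarith) hν.int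
    rw [Finset.sum_range_succ'] at h3
    simp only [Nat.add_eq_zero_iff, one_ne_zero, and_false, if_false, if_true] at h3
    push_cast at h3
    linarith
  have := ge_of_tendsto' (h1.const_add (0.34 * (4 / c * E0 c ν))) h2
  linarith

/-- the linear kernel -/
noncomputable def wl (ζ : ℝ → ℂ) (z : ℝ × ℝ) : ℂ :=
  if z.2 ≤ z.1 then ζ z.1 - ζ z.2 else ζ z.2 - ζ z.1

/-- energy of `-4 |t|` -/
noncomputable def EL (ζ : ℝ → ℂ) (ν : ℝ → ℝ) : ℂ :=
  ∫ z : ℝ × ℝ, -4 * wl ζ z * ((ν z.1 : ℂ) * (ν z.2 : ℂ))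

theorem kc_wl (z : ℝ × ℝ) : kc c ζ z = Complex.exp (-(c * wl ζ z)) := by
  unfold kc wl
  split_ifs <;> rfl

theorem wl_re (hz : CrvH h ζ g) (z : ℝ × ℝ) : 0 ≤ (wl ζ z).re := by
  have hh := hz.pos
  unfold wl
  split_ifs with h1
  · exact (mul_nonneg hh.le (by linarith)).trans (re_sub hz h1)
  · push Not at h1
    exact (mul_nonneg hh.le (by linarith)).trans (re_sub hz h1.le)

theorem g_norm (hz : CrvH h ζ g) (x : ℝ) : ‖g x‖ ≤ 1 / h := by
  have hh := hz.pos
  have h1 := hz.up x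
  rw [Complex.normSq_eq_norm_sq] at h1
  have h2 := Complex.re_le_norm (g x)
  have h3 := hz.lo x
  have h4 : 0 < ‖g x‖ := by linarith
  rw [le_div_iff₀ hh]
  nlinarith

theorem wl_norm (hz : CrvH h ζ g) (z : ℝ × ℝ) : ‖wl ζ z‖ ≤ 1 / h * (|z.1| + |z.2|) := by
  have hh := hz.pos
  have hl : ∀ x y : ℝ, ‖ζ x - ζ y‖ ≤ 1 / h * |x - y| := by
    intro x y
    have := Convex.norm_image_sub_le_of_norm_hasDerivWithin_le (f := ζ) (f' := g)
      (s := univ) (C := 1 / h) (fun x _ => (hz.der x).hasDerivWithinAt)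
      (fun x _ => g_norm hz x) convex_univ (mem_univ y) (mem_univ x)
    simpa using this
  have ha : |z.1 - z.2| ≤ |z.1| + |z.2| := abs_sub _ _
  have hb : |z.2 - z.1| ≤ |z.1| + |z.2| := by
    rw [abs_sub_comm]
    exact ha
  unfold wl
  split_ifs with h1
  · exact (hl _ _).trans (mul_le_mul_of_nonneg_left ha (by positivity))
  · exact (hl _ _).trans (mul_le_mul_of_nonneg_left hb (by positivity))

theorem wl_cont (hz : Continuous ζ) : Continuous (wl ζ) := by
  unfold wl
  apply Continuous.if_le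
  · fun_prop
  · fun_prop
  · exact continuous_snd
  · exact continuous_fst
  · intro z hz'
    rw [hz']

/-- `(4 / c) E_c → E_lin` for neutral densities -/
theorem EL_lim (hz : CrvH h ζ g) (hν : Den B ν) (hx : Integrable fun x => x * ν x)
    (h0 : ∫ x, ν x = 0) :
    Tendsto (fun k : ℕ => ((4 / (1 / ((k : ℝ) + 5)) : ℝ) : ℂ) * EW (1 / ((k : ℝ) + 5)) ζ ν)
      atTop (𝓝 (EL ζ ν)) := by
  have hh := hz.pos
  have hnn : ∫ z : ℝ × ℝ, ((ν z.1 : ℂ) * (ν z.2 : ℂ)) = 0 := by
    rw [Measure.volume_eq_prod, integral_prod_mul (fun x => (ν x : ℂ)) (fun x => (ν x : ℂ)),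
      integral_complex_ofReal, h0]
    simp
  have e : ∀ k : ℕ, ((4 / (1 / ((k : ℝ) + 5)) : ℝ) : ℂ) * EW (1 / ((k : ℝ) + 5)) ζ ν =
      ∫ z : ℝ × ℝ, ((4 / (1 / ((k : ℝ) + 5)) : ℝ) : ℂ) *
        (Complex.exp (-(((1 / ((k : ℝ) + 5) : ℝ) : ℂ) * wl ζ z)) - 1) *
          ((ν z.1 : ℂ) * (ν z.2 : ℂ)) := by
    intro k
    have i1 := FF_int (c := 1 / ((k : ℝ) + 5)) (by positivity) hz hν.int
    have e1 : EW (1 / ((k : ℝ) + 5)) ζ ν = ∫ z : ℝ × ℝ,
        (Complex.exp (-(((1 / ((k : ℝ) + 5) : ℝ) : ℂ) * wl ζ z)) - 1) *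
          ((ν z.1 : ℂ) * (ν z.2 : ℂ)) := by
      have e2 : EW (1 / ((k : ℝ) + 5)) ζ ν = EW (1 / ((k : ℝ) + 5)) ζ ν -
          ∫ z : ℝ × ℝ, ((ν z.1 : ℂ) * (ν z.2 : ℂ)) := by rw [hnn, sub_zero]
      rw [e2]
      unfold EW
      rw [← integral_sub i1 (nn_int hν.int)]
      congr 1
      ext z
      unfold FF
      rw [kc_wl]
      ring
    rw [e1, ← integral_const_mul]
    congr 1
    ext z
    ring
  simp_rw [e]
  unfold EL
  have hb : Integrable (fun z : ℝ × ℝ => 8 / h * ((|z.1| + |z.2|) * (|ν z.1| * |ν z.2|))) := by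
    apply Integrable.const_mul
    have a1 : Integrable (fun z : ℝ × ℝ => |z.1 * ν z.1| * |ν z.2|) (volume.prod volume) :=
      hx.abs.mul_prod hν.int.abs
    have a2 : Integrable (fun z : ℝ × ℝ => |ν z.1| * |z.2 * ν z.2|) (volume.prod volume) :=
      hν.int.abs.mul_prod hx.abs
    rw [Measure.volume_eq_prod]
    refine (a1.add a2).congr ?_
    filter_upwards with z
    simp only [Pi.add_apply, abs_mul]
    ring
  refine tendsto_integral_of_dominated_convergence _ ?_ hb ?_ ?_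
  · intro k
    have c1 := wl_cont hz.ct
    have c2 := hν.cont
    apply Continuous.aestronglyMeasurable
    fun_prop
  · intro k
    filter_upwards with z
    have hk : (0 : ℝ) < 1 / ((k : ℝ) + 5) := by positivity
    set q : ℝ := 1 / ((k : ℝ) + 5) with hq
    have hw := wl_re hz z
    have hwn := wl_norm hz z
    have k1 : ‖Complex.exp (-((q : ℂ) * wl ζ z)) - 1‖ ≤ 2 * (q * ‖wl ζ z‖) := by
      have n1 : ‖-((q : ℂ) * wl ζ z)‖ = q * ‖wl ζ z‖ := by
        rw [norm_neg, norm_mul, Complex.norm_real, Real.norm_eq_abs, abs_of_pos hk]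
      rcases le_or_gt (q * ‖wl ζ z‖) 1 with h1 | h1
      · have := Complex.norm_exp_sub_one_le (x := -((q : ℂ) * wl ζ z)) (by rw [n1]; exact h1)
        rwa [n1] at this
      · have h2 : ‖Complex.exp (-((q : ℂ) * wl ζ z))‖ ≤ 1 := by
          rw [Complex.norm_exp, Real.exp_le_one_iff, Complex.neg_re, Complex.re_ofReal_mul]
          have := mul_nonneg hk.le hw
          linarith
        calc ‖Complex.exp (-((q : ℂ) * wl ζ z)) - 1‖ ≤
            ‖Complex.exp (-((q : ℂ) * wl ζ z))‖ + ‖(1 : ℂ)‖ := norm_sub_le _ _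
          _ ≤ 2 := by rw [norm_one]; linarith
          _ ≤ _ := by linarith
    rw [norm_mul, norm_mul, norm_mul, Complex.norm_real, Complex.norm_real, Complex.norm_real,
      Real.norm_eq_abs, Real.norm_eq_abs, Real.norm_eq_abs, abs_of_pos (by positivity)]
    have hA : 0 ≤ |ν z.1| * |ν z.2| := by positivity
    calc 4 / q * ‖Complex.exp (-((q : ℂ) * wl ζ z)) - 1‖ * (|ν z.1| * |ν z.2|)
        ≤ 4 / q * (2 * (q * (1 / h * (|z.1| + |z.2|)))) * (|ν z.1| * |ν z.2|) := by
          apply mul_le_mul_of_nonneg_right _ hA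
          apply mul_le_mul_of_nonneg_left _ (by positivity)
          refine k1.trans ?_
          apply mul_le_mul_of_nonneg_left _ (by norm_num)
          exact mul_le_mul_of_nonneg_left hwn hk.le
      _ = 8 / h * ((|z.1| + |z.2|) * (|ν z.1| * |ν z.2|)) := by
          field_simp
          ring
  · filter_upwards with z
    apply Tendsto.mul_const
    have hd : HasDerivAt (fun t : ℂ => Complex.exp (-(t * wl ζ z))) (-(wl ζ z)) 0 := by
      have h1 : HasDerivAt (fun t : ℂ => -(t * wl ζ z)) (-(1 * wl ζ z)) 0 :=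
        ((hasDerivAt_id (0 : ℂ)).mul_const _).neg
      have h2 := h1.cexp
      simpa using h2
    have hs := hasDerivAt_iff_tendsto_slope.mp hd
    have hq : Tendsto (fun k : ℕ => ((1 / ((k : ℝ) + 5) : ℝ) : ℂ)) atTop (𝓝[≠] 0) := by
      apply tendsto_nhdsWithin_iff.mpr
      constructor
      · have h3 : Tendsto (fun k : ℕ => (1 / ((k : ℝ) + 5) : ℝ)) atTop (𝓝 0) := by
          have := (tendsto_natCast_atTop_atTop (R := ℝ)).atTop_add
            (tendsto_const_nhds (x := (5 : ℝ)))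
          simpa using! this.inv_tendsto_atTop
        have h4 := (Complex.continuous_ofReal.tendsto 0).comp h3
        rw [Complex.ofReal_zero] at h4
        exact h4
      · filter_upwards with k
        have : (1 / ((k : ℝ) + 5) : ℝ) ≠ 0 := by positivity
        exact Complex.ofReal_ne_zero.mpr this
    have h4 := (hs.comp hq).const_mul (4 : ℂ)
    have e5 : (fun k : ℕ => ((4 / (1 / ((k : ℝ) + 5)) : ℝ) : ℂ) *
        (Complex.exp (-(((1 / ((k : ℝ) + 5) : ℝ) : ℂ) * wl ζ z)) - 1)) =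
        fun k : ℕ => 4 * (slope (fun t : ℂ => Complex.exp (-(t * wl ζ z))) 0 ∘
          fun k : ℕ => ((1 / ((k : ℝ) + 5) : ℝ) : ℂ)) k := by
      ext k
      simp only [Function.comp, slope_def_field]
      simp only [zero_mul, neg_zero, Complex.exp_zero, sub_zero]
      push_cast
      ring
    rw [e5]
    have e6 : (-4 : ℂ) * wl ζ z = 4 * -(wl ζ z) := by ring
    rw [e6]
    exact h4

/-- **certificate, minus mode** (neutral densities) -/
theorem certM (hz : CrvH h ζ g) (hν : Den B ν) (hx : Integrable fun x => x * ν x)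
    (h0 : ∫ x, ν x = 0) :
    (h - 0.34 * (1 / h - h)) * (EL (fun x => (x : ℂ)) ν + ES nM (fun x => (x : ℂ)) ν).re ≤
      (EL ζ ν + ES nM ζ ν).re := by
  have hh := hz.pos
  have h3 : 0 ≤ 1 / h - h := by
    have := le_one hz
    rw [sub_nonneg, le_div_iff₀ hh]
    nlinarith
  have l1 := (Complex.continuous_re.tendsto _).comp (EL_lim hz hν hx h0)
  have l0 := (Complex.continuous_re.tendsto _).comp
    (EL_lim (crvH_id one_pos le_rfl) hν hx h0)
  have a1 : h * (EL (fun x => (x : ℂ)) ν).re ≤ (EL ζ ν).re := by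
    refine le_of_tendsto_of_tendsto' (l0.const_mul h) l1 fun k => ?_
    simp only [Function.comp]
    rw [Complex.re_ofReal_mul, Complex.re_ofReal_mul, EW_id (by positivity) hν.int,
      Complex.ofReal_re]
    obtain ⟨f1, -⟩ := formW (c := 1 / ((k : ℝ) + 5)) (by positivity) hz hν.cont hν.int
    have : 0 ≤ 4 / (1 / ((k : ℝ) + 5)) := by positivity
    have := mul_le_mul_of_nonneg_left f1 this
    linarith
  have a2 : (ES (ng nM) (fun x => (x : ℂ)) ν).re ≤
      0.34 * ((EL (fun x => (x : ℂ)) ν).re + (ES nM (fun x => (x : ℂ)) ν).re) := by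
    have l2 := (l0.add_const (ES nM (fun x => (x : ℂ)) ν).re).const_mul (0.34 : ℝ)
    refine ge_of_tendsto' l2 fun k => ?_
    simp only [Function.comp]
    rw [Complex.re_ofReal_mul, EW_id (by positivity) hν.int, Complex.ofReal_re]
    apply step2c hν (by positivity)
    rw [div_le_iff₀ (by positivity)]
    have : (0 : ℝ) ≤ k := Nat.cast_nonneg k
    linarith
  have a3 := step1 hz hν nM_bd
  have a4 := mul_le_mul_of_nonneg_left a2 h3
  rw [Complex.add_re, Complex.add_re]
  linarith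

end Pool.Agent.IST25
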