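import Mathlib

/-!
# Energies of the exponential kernels in Fourier variables

`∫∫ exp (-c |x - y|) ν x ν y = ∫ 2 c / (c² + (2 π w)²) |ν^ (w)|² dw`
-/

namespace Pool.Agent.IST25

open MeasureTheory Set Filter Topology
open scoped FourierTransform

variable {c : ℝ}

/-- the exponential kernel -/
noncomputable def ek (c x : ℝ) : ℝ := Real.exp (-(c * |x|))

/-- its symbol -/
noncomputable def sy (c w : ℝ) : ℝ := 2 * c / (c ^ 2 + (2 * Real.pi * w) ^ 2)

theorem ek_cont (c : ℝ) : Continuous (ek c) := by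
  unfold ek
  fun_prop

theorem ek_int (hc : 0 < c) : Integrable (ek c) := by
  unfold ek
  have h1 : IntegrableOn (fun x : ℝ => Real.exp (-(c * |x|))) (Ioi 0) := by
    refine (integrableOn_exp_mul_Ioi (a := -c) (by linarith) 0).congr_fun ?_ measurableSet_Ioi
    intro x hx
    simp only
    rw [abs_of_pos hx]
    ring_nf
  have h2 : IntegrableOn (fun x : ℝ => Real.exp (-(c * |x|))) (Iic 0) := by
    refine (integrableOn_exp_mul_Iic (a := c) hc 0).congr_fun ?_ measurableSet_Iic
    intro x hx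
    simp only
    rw [abs_of_nonpos hx]
    ring_nf
  rw [← integrableOn_univ, ← Iic_union_Ioi (a := (0 : ℝ))]
  exact h2.union h1

theorem ft_ek (hc : 0 < c) (w : ℝ) : 𝓕 (fun x => (ek c x : ℂ)) w = sy c w := by
  rw [Real.fourier_real_eq_integral_exp_smul]
  have hI : Integrable (fun v : ℝ => Complex.exp (((-2 * Real.pi * v * w : ℝ) : ℂ) * Complex.I) •
      (ek c v : ℂ)) := by
    refine (ek_int hc).ofReal.bdd_mul (c := 1) ?_ ?_
    · apply Continuous.aestronglyMeasurable
      fun_prop
    · filter_upwards with v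
      rw [Complex.norm_exp_ofReal_mul_I]
  rw [← integral_add_compl measurableSet_Iic hI (s := Iic (0 : ℝ)), compl_Iic]
  have e1 : ∫ v in Iic (0 : ℝ), Complex.exp (((-2 * Real.pi * v * w : ℝ) : ℂ) * Complex.I) •
      (ek c v : ℂ) = ∫ v in Iic (0 : ℝ), Complex.exp ((c - 2 * Real.pi * w * Complex.I : ℂ) * v) := by
    apply setIntegral_congr_fun measurableSet_Iic
    intro v hv
    simp only [ek]
    rw [abs_of_nonpos hv, smul_eq_mul, Complex.ofReal_exp, ← Complex.exp_add]
    congr 1
    push_cast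
    ring
  have e2 : ∫ v in Ioi (0 : ℝ), Complex.exp (((-2 * Real.pi * v * w : ℝ) : ℂ) * Complex.I) •
      (ek c v : ℂ) = ∫ v in Ioi (0 : ℝ),
        Complex.exp ((-c - 2 * Real.pi * w * Complex.I : ℂ) * v) := by
    apply setIntegral_congr_fun measurableSet_Ioi
    intro v hv
    simp only [ek]
    rw [abs_of_pos hv, smul_eq_mul, Complex.ofReal_exp, ← Complex.exp_add]
    congr 1
    push_cast
    ring
  rw [e1, e2, integral_exp_mul_complex_Iic (by simpa using hc),
    integral_exp_mul_complex_Ioi (by simpa using hc)]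
  simp only [Complex.ofReal_zero, mul_zero, Complex.exp_zero]
  unfold sy
  have h1 : (c : ℂ) - 2 * Real.pi * w * Complex.I ≠ 0 := by
    intro h
    have := congrArg Complex.re h
    simp at this
    linarith
  have h2 : -(c : ℂ) - 2 * Real.pi * w * Complex.I ≠ 0 := by
    intro h
    have := congrArg Complex.re h
    simp at this
    linarith
  have h3 : ((c : ℂ) ^ 2 + (2 * Real.pi * w) ^ 2) ≠ 0 := by
    have h4 : 0 < c ^ 2 + (2 * Real.pi * w) ^ 2 := by positivity
    exact_mod_cast h4.ne'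
  push_cast
  rw [div_add_div _ _ h1 h2, div_eq_div_iff (mul_ne_zero h1 h2) h3]
  linear_combination (-2 * (c : ℂ) * (2 * Real.pi * w) ^ 2) * Complex.I_sq

theorem sy_nonneg (hc : 0 < c) (w : ℝ) : 0 ≤ sy c w := by
  unfold sy
  positivity

theorem sy_int (hc : 0 < c) : Integrable (sy c) := by
  have h1 := (integrable_inv_one_add_sq).comp_mul_left' (R := 2 * Real.pi / c)
    (by positivity)
  refine (h1.const_mul (2 / c)).congr ?_
  filter_upwards with w
  unfold sy
  field_simp

theorem inv_ek (hc : 0 < c) (x : ℝ) :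
    (ek c x : ℂ) = ∫ w : ℝ, Complex.exp (((2 * Real.pi * w * x : ℝ) : ℂ) * Complex.I) *
      (sy c w : ℂ) := by
  have hf : Continuous fun x : ℝ => (ek c x : ℂ) := Complex.continuous_ofReal.comp (ek_cont c)
  have hFe : 𝓕 (fun x => (ek c x : ℂ)) = fun w => (sy c w : ℂ) := funext (ft_ek hc)
  have h := Continuous.fourierInv_fourier_eq hf (ek_int hc).ofReal (by
    rw [hFe]
    exact (sy_int hc).ofReal)
  have h2 := congrFun h x
  rw [hFe, Real.fourierInv_eq'] at h2
  rw [← h2]
  congr 1
  ext w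
  rw [smul_eq_mul]
  congr 3
  simp
  ring

/-! ### the energy -/

/-- Fourier transform of the density -/
noncomputable def nh (ν : ℝ → ℝ) (w : ℝ) : ℂ :=
  ∫ x : ℝ, Complex.exp (((-(2 * Real.pi * w * x) : ℝ) : ℂ) * Complex.I) * (ν x : ℂ)

/-- the energy of the straight line -/
noncomputable def E0 (c : ℝ) (ν : ℝ → ℝ) : ℝ := ∫ x : ℝ, (∫ y : ℝ, ek c (x - y) * ν y) * ν x

theorem nh_bd {ν : ℝ → ℝ} (w : ℝ) : ‖nh ν w‖ ≤ ∫ x, |ν x| := by
  unfold nh
  refine (norm_integral_le_integral_norm _).trans (le_of_eq ?_)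
  congr 1
  ext x
  rw [norm_mul, Complex.norm_exp_ofReal_mul_I, one_mul, Complex.norm_real, Real.norm_eq_abs]

theorem nh_star {ν : ℝ → ℝ} (w : ℝ) :
    star (nh ν w) = ∫ x : ℝ, Complex.exp (((2 * Real.pi * w * x : ℝ) : ℂ) * Complex.I) *
      (ν x : ℂ) := by
  have e : star (nh ν w) = (starRingEnd ℂ) (nh ν w) := rfl
  rw [e]
  unfold nh
  rw [← integral_conj]
  congr 1
  ext x
  rw [map_mul, Complex.conj_ofReal, ← Complex.exp_conj, map_mul, Complex.conj_ofReal,
    Complex.conj_I]
  congr 2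
  push_cast
  ring

theorem nh_cont {ν : ℝ → ℝ} (hν : Integrable ν) : Continuous (nh ν) := by
  unfold nh
  refine continuous_of_dominated (bound := fun x => |ν x|) ?_ ?_ hν.abs ?_
  · intro w
    exact (Continuous.aestronglyMeasurable (by fun_prop)).mul hν.ofReal.aestronglyMeasurable
  · intro w
    filter_upwards with x
    rw [norm_mul, Complex.norm_exp_ofReal_mul_I, one_mul, Complex.norm_real, Real.norm_eq_abs]
  · filter_upwards with x
    fun_prop

theorem pot_ft (hc : 0 < c) {ν : ℝ → ℝ} (hν : Integrable ν) (x : ℝ) :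
    ((∫ y : ℝ, ek c (x - y) * ν y : ℝ) : ℂ) =
      ∫ w : ℝ, (sy c w : ℂ) * (Complex.exp (((2 * Real.pi * w * x : ℝ) : ℂ) * Complex.I) *
        nh ν w) := by
  rw [← integral_complex_ofReal]
  have e1 : ∀ y : ℝ, ((ek c (x - y) * ν y : ℝ) : ℂ) = ∫ w : ℝ,
      Complex.exp (((2 * Real.pi * w * (x - y) : ℝ) : ℂ) * Complex.I) * (sy c w : ℂ) * (ν y : ℂ) := by
    intro y
    rw [Complex.ofReal_mul, inv_ek hc, integral_mul_const]
  simp_rw [e1]
  rw [integral_integral_swap]
  · congr 1
    ext w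
    unfold nh
    rw [← integral_const_mul, ← integral_const_mul]
    congr 1
    ext y
    have e2 : Complex.exp (((2 * Real.pi * w * (x - y) : ℝ) : ℂ) * Complex.I) =
        Complex.exp (((2 * Real.pi * w * x : ℝ) : ℂ) * Complex.I) *
          Complex.exp (((-(2 * Real.pi * w * y) : ℝ) : ℂ) * Complex.I) := by
      rw [← Complex.exp_add]
      congr 1
      push_cast
      ring
    rw [e2]
    ring
  · have h1 : Integrable (fun z : ℝ × ℝ => (ν z.1 : ℂ) * (sy c z.2 : ℂ)) (volume.prod volume) :=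
      hν.ofReal.mul_prod (sy_int hc).ofReal
    have h2 : Integrable (fun z : ℝ × ℝ =>
        Complex.exp (((2 * Real.pi * z.2 * (x - z.1) : ℝ) : ℂ) * Complex.I) *
          ((ν z.1 : ℂ) * (sy c z.2 : ℂ))) (volume.prod volume) := by
      refine h1.bdd_mul (c := 1) ?_ ?_
      · apply Continuous.aestronglyMeasurable
        fun_prop
      · filter_upwards with v
        rw [Complex.norm_exp_ofReal_mul_I]
    refine h2.congr ?_
    filter_upwards with z
    simp only [Function.uncurry]
    ring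

/-- **the energy in Fourier variables** -/
theorem E0_ft (hc : 0 < c) {ν : ℝ → ℝ} (hν : Integrable ν) :
    E0 c ν = ∫ w : ℝ, sy c w * Complex.normSq (nh ν w) := by
  have hI : Integrable (fun w => (sy c w : ℂ) * nh ν w) := by
    refine ((sy_int hc).ofReal.mul_bdd (c := ∫ x, |ν x|)
      (nh_cont hν).aestronglyMeasurable ?_)
    filter_upwards with w
    exact nh_bd w
  have h : ((E0 c ν : ℝ) : ℂ) = ((∫ w : ℝ, sy c w * Complex.normSq (nh ν w) : ℝ) : ℂ) := by
    unfold E0
    rw [← integral_complex_ofReal, ← integral_complex_ofReal]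
    have e1 : ∀ x : ℝ, (((∫ y : ℝ, ek c (x - y) * ν y) * ν x : ℝ) : ℂ) = ∫ w : ℝ,
        (sy c w : ℂ) * (Complex.exp (((2 * Real.pi * w * x : ℝ) : ℂ) * Complex.I) *
        nh ν w) * (ν x : ℂ) := by
      intro x
      rw [Complex.ofReal_mul, pot_ft hc hν, integral_mul_const]
    simp_rw [e1]
    rw [integral_integral_swap]
    · congr 1
      ext w
      have e2 : ∀ x : ℝ, (sy c w : ℂ) * (Complex.exp (((2 * Real.pi * w * x : ℝ) : ℂ) *
          Complex.I) * nh ν w) * (ν x : ℂ) = (sy c w : ℂ) * nh ν w *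
            (Complex.exp (((2 * Real.pi * w * x : ℝ) : ℂ) * Complex.I) * (ν x : ℂ)) := by
        intro x
        ring
      simp_rw [e2]
      rw [integral_const_mul, ← nh_star, mul_assoc]
      have e3 : nh ν w * star (nh ν w) = (Complex.normSq (nh ν w) : ℂ) := Complex.mul_conj _
      rw [e3]
      push_cast
      ring
    · have h1 : Integrable (fun z : ℝ × ℝ => (ν z.1 : ℂ) * ((sy c z.2 : ℂ) * nh ν z.2))
          (volume.prod volume) := hν.ofReal.mul_prod hI
      have h2 : Integrable (fun z : ℝ × ℝ =>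
          Complex.exp (((2 * Real.pi * z.2 * z.1 : ℝ) : ℂ) * Complex.I) *
            ((ν z.1 : ℂ) * ((sy c z.2 : ℂ) * nh ν z.2))) (volume.prod volume) := by
        refine h1.bdd_mul (c := 1) ?_ ?_
        · apply Continuous.aestronglyMeasurable
          fun_prop
        · filter_upwards with v
          rw [Complex.norm_exp_ofReal_mul_I]
      refine h2.congr ?_
      filter_upwards with z
      simp only [Function.uncurry]
      ring
  exact_mod_cast h

/-- positivity of a finite combination -/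
theorem comb_nonneg {ι : Type*} (s : Finset ι) (a : ι → ℝ) (c : ι → ℝ) (hc : ∀ i ∈ s, 0 < c i)
    (hs : ∀ w : ℝ, 0 ≤ ∑ i ∈ s, a i * sy (c i) w) {ν : ℝ → ℝ} (hν : Integrable ν) :
    0 ≤ ∑ i ∈ s, a i * E0 (c i) ν := by
  have hI : ∀ i ∈ s, Integrable (fun w => sy (c i) w * Complex.normSq (nh ν w)) := by
    intro i hi
    refine (sy_int (hc i hi)).mul_bdd (c := (∫ x, |ν x|) ^ 2)
      (Complex.continuous_normSq.comp (nh_cont hν)).aestronglyMeasurable ?_
    filter_upwards with w
    rw [Real.norm_eq_abs, Complex.normSq_eq_norm_sq, abs_of_nonneg (sq_nonneg _)]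
    exact pow_le_pow_left₀ (norm_nonneg _) (nh_bd w) 2
  have e : ∑ i ∈ s, a i * E0 (c i) ν = ∫ w : ℝ, (∑ i ∈ s, a i * sy (c i) w) *
      Complex.normSq (nh ν w) := by
    simp_rw [Finset.sum_mul]
    rw [integral_finsetSum s (fun i hi => by
      refine ((hI i hi).const_mul (a i)).congr ?_
      filter_upwards with w
      ring)]
    refine Finset.sum_congr rfl fun i hi => ?_
    rw [E0_ft (hc i hi) hν, ← integral_const_mul]
    congr 1
    ext w
    ring
  rw [e]
  exact integral_nonneg fun w => mul_nonneg (hs w) (Complex.normSq_nonneg _)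

end Pool.Agent.IST25
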