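import Pool.Agent.IST25.Whole
import Pool.Agent.IST25.Blk

/-!
# The certificates: `(1 - θ) U_± ≤ Re (U_± ∘ ζ)`
-/

namespace Pool.Agent.IST25

open MeasureTheory Set Filter Topology

variable {c h B : ℝ} {ζ g : ℝ → ℂ} {ν : ℝ → ℝ} {n : ℕ → ℝ}

theorem int_ek (hc : 0 < c) : ∫ x, ek c x = 2 / c := by
  have h1 := ft_ek hc 0
  rw [Real.fourier_real_eq_integral_exp_smul] at h1
  simp only [mul_zero, Complex.ofReal_zero, zero_mul, Complex.exp_zero, one_smul] at h1
  rw [integral_complex_ofReal] at h1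
  have h2 : ∫ x, ek c x = sy c 0 := by exact_mod_cast h1
  rw [h2]
  unfold sy
  have : c ≠ 0 := hc.ne'
  field_simp
  ring

/-- bound of the energies: decay like `1 / c` -/
theorem FF_dec (hc : 0 < c) (hz : CrvH h ζ g) (hi : Integrable ν) (hB : ∀ x, |ν x| ≤ B) :
    ∫ z, ‖FF c ζ ν z‖ ≤ 2 / (c * h) * B * ∫ x, |ν x| := by
  have hh := hz.pos
  have hch : 0 < c * h := mul_pos hc hh
  have hB0 : 0 ≤ B := (abs_nonneg _).trans (hB 0)
  have hI := (FF_int hc.le hz hi).norm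
  rw [Measure.volume_eq_prod] at hI ⊢
  rw [integral_prod _ hI, ← integral_const_mul]
  refine integral_mono_of_nonneg ?_ (hi.abs.const_mul _) ?_
  · filter_upwards with x
    exact integral_nonneg fun y => norm_nonneg _
  · filter_upwards with x
    have e : 2 / (c * h) * B * |ν x| = ∫ y, |ν x| * (ek (c * h) (x - y) * B) := by
      rw [integral_const_mul, integral_mul_const, integral_sub_left_eq_self (ek (c * h)) _ x,
        int_ek hch]
      ring
    rw [e]
    refine integral_mono_of_nonneg ?_ ?_ ?_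
    · filter_upwards with y
      exact norm_nonneg _
    · exact (((ek_int hch).comp_sub_left x).mul_const B).const_mul _
    · filter_upwards with y
      unfold FF
      rw [norm_mul, norm_mul, Complex.norm_real, Complex.norm_real, Real.norm_eq_abs,
        Real.norm_eq_abs]
      have k1 := kc_norm hc.le hz (x, y)
      simp only at k1
      calc ‖kc c ζ (x, y)‖ * (|ν x| * |ν y|) ≤ ek (c * h) (x - y) * (|ν x| * B) := by
            apply mul_le_mul k1 (mul_le_mul_of_nonneg_left (hB y) (abs_nonneg _)) (by positivity)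
              (Real.exp_nonneg _)
        _ = |ν x| * (ek (c * h) (x - y) * B) := by ring

/-- the energy of a series -/
noncomputable def ES (n : ℕ → ℝ) (ζ : ℝ → ℂ) (ν : ℝ → ℝ) : ℂ :=
  ∫ z : ℝ × ℝ, (∑' j : ℕ, ((2 / (j + 1) * n (j + 1) : ℝ) : ℂ) * kc (2 * (j + 1)) ζ z) *
    ((ν z.1 : ℂ) * (ν z.2 : ℂ))

/-- densities -/
structure Den (B : ℝ) (ν : ℝ → ℝ) : Prop where
  cont : Continuous ν
  int : Integrable ν
  bd : ∀ x, |ν x| ≤ B

theorem sum_norm (hz : CrvH h ζ g) (hν : Den B ν) (hn : ∀ j, |n j| ≤ 6) :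
    Summable fun j : ℕ => ∫ z, ‖((2 / (j + 1) * n (j + 1) : ℝ) : ℂ) *
      FF (2 * (j + 1)) ζ ν z‖ := by
  have hh := hz.pos
  have hB0 : 0 ≤ B := (abs_nonneg _).trans (hν.bd 0)
  have hs : Summable fun j : ℕ => 12 / h * B * (∫ x, |ν x|) * (1 / ((j : ℝ) + 1) ^ 2) := by
    apply Summable.mul_left
    have := (summable_nat_add_iff 1).mpr (Real.summable_one_div_nat_pow.mpr (one_lt_two))
    refine this.congr fun j => ?_
    push_cast
    rfl
  refine Summable.of_nonneg_of_le (fun j => integral_nonneg fun z => norm_nonneg _) (fun j => ?_) hs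
  have hj : (0 : ℝ) < (j : ℝ) + 1 := by positivity
  have e : ∫ z, ‖((2 / ((j : ℝ) + 1) * n (j + 1) : ℝ) : ℂ) * FF (2 * (j + 1)) ζ ν z‖ =
      |2 / ((j : ℝ) + 1) * n (j + 1)| * ∫ z, ‖FF (2 * (j + 1)) ζ ν z‖ := by
    rw [← integral_const_mul]
    congr 1
    ext z
    rw [norm_mul, Complex.norm_real, Real.norm_eq_abs]
  rw [e]
  have k1 := FF_dec (c := 2 * ((j : ℝ) + 1)) (by positivity) hz hν.int hν.bd
  have k2 : |2 / ((j : ℝ) + 1) * n (j + 1)| ≤ 12 / ((j : ℝ) + 1) := by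
    rw [abs_mul, abs_of_pos (show 0 < 2 / ((j : ℝ) + 1) by positivity)]
    calc 2 / ((j : ℝ) + 1) * |n (j + 1)| ≤ 2 / ((j : ℝ) + 1) * 6 :=
          mul_le_mul_of_nonneg_left (hn _) (by positivity)
      _ = 12 / ((j : ℝ) + 1) := by ring
  have hint : 0 ≤ ∫ x, |ν x| := integral_nonneg fun x => abs_nonneg _
  calc |2 / ((j : ℝ) + 1) * n (j + 1)| * ∫ z, ‖FF (2 * (j + 1)) ζ ν z‖
      ≤ 12 / ((j : ℝ) + 1) * (2 / (2 * ((j : ℝ) + 1) * h) * B * ∫ x, |ν x|) :=
        mul_le_mul k2 k1 (integral_nonneg fun z => norm_nonneg _) (by positivity)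
    _ = 12 / h * B * (∫ x, |ν x|) * (1 / ((j : ℝ) + 1) ^ 2) := by
        field_simp

theorem ES_sum (hz : CrvH h ζ g) (hν : Den B ν) (hn : ∀ j, |n j| ≤ 6) :
    HasSum (fun j : ℕ => ((2 / (j + 1) * n (j + 1) : ℝ) : ℂ) * EW (2 * (j + 1)) ζ ν)
      (ES n ζ ν) := by
  have h1 := hasSum_integral_of_summable_integral_norm
    (F := fun (j : ℕ) z => ((2 / ((j : ℝ) + 1) * n (j + 1) : ℝ) : ℂ) * FF (2 * (j + 1)) ζ ν z)
    (μ := (volume : Measure (ℝ × ℝ)))
    (fun j => (FF_int (c := 2 * ((j : ℝ) + 1)) (by positivity) hz hν.int).const_mul _)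
    (sum_norm hz hν hn)
  have e1 : ES n ζ ν = ∫ z, ∑' j : ℕ, ((2 / ((j : ℝ) + 1) * n (j + 1) : ℝ) : ℂ) *
      FF (2 * (j + 1)) ζ ν z := by
    unfold ES
    congr 1
    ext z
    rw [← tsum_mul_right]
    congr 1
    ext j
    unfold FF
    ring
  have e2 : (fun j : ℕ => ((2 / ((j : ℝ) + 1) * n (j + 1) : ℝ) : ℂ) * EW (2 * (j + 1)) ζ ν) =
      fun j : ℕ => ∫ z, ((2 / ((j : ℝ) + 1) * n (j + 1) : ℝ) : ℂ) * FF (2 * (j + 1)) ζ ν z := by
    ext j
    rw [integral_const_mul]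
    rfl
  rw [e1, e2]
  exact h1

theorem ES_re (hz : CrvH h ζ g) (hν : Den B ν) (hn : ∀ j, |n j| ≤ 6) :
    HasSum (fun j : ℕ => (2 / ((j : ℝ) + 1) * n (j + 1)) * (EW (2 * (j + 1)) ζ ν).re)
      (ES n ζ ν).re := by
  have h1 := (Complex.hasSum_re (ES_sum hz hν hn))
  have e : (fun j : ℕ => (((2 / ((j : ℝ) + 1) * n (j + 1) : ℝ) : ℂ) *
      EW (2 * (j + 1)) ζ ν).re) = fun j : ℕ => (2 / ((j : ℝ) + 1) * n (j + 1)) *
        (EW (2 * (j + 1)) ζ ν).re := by
    ext j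
    rw [Complex.re_ofReal_mul]
  rw [e] at h1
  exact h1

theorem ES0 (hν : Den B ν) (hn : ∀ j, |n j| ≤ 6) :
    HasSum (fun j : ℕ => (2 / ((j : ℝ) + 1) * n (j + 1)) * E0 (2 * (j + 1)) ν)
      (ES n (fun x => (x : ℂ)) ν).re := by
  have h1 := ES_re (n := n) (crvH_id one_pos le_rfl) hν hn
  have e : (fun j : ℕ => (2 / ((j : ℝ) + 1) * n (j + 1)) *
      (EW (2 * (j + 1)) (fun x => (x : ℂ)) ν).re) = fun j : ℕ =>
        (2 / ((j : ℝ) + 1) * n (j + 1)) * E0 (2 * (j + 1)) ν := by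
    ext j
    rw [EW_id (by positivity) hν.int, Complex.ofReal_re]
  rw [e] at h1
  exact h1

theorem E0_nonneg (hc : 0 < c) (hi : Integrable ν) : 0 ≤ E0 c ν := by
  rw [E0_ft hc hi]
  exact integral_nonneg fun w => mul_nonneg (sy_nonneg hc w) (Complex.normSq_nonneg _)

/-- negative part -/
noncomputable def ng (n : ℕ → ℝ) (j : ℕ) : ℝ := max (-(n j)) 0

/-- **step 1**: `Re E ≥ h E₀ - (1 / h - h) M₀` -/
theorem step1 (hz : CrvH h ζ g) (hν : Den B ν) (hn : ∀ j, |n j| ≤ 6) :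
    h * (ES n (fun x => (x : ℂ)) ν).re - (1 / h - h) * (ES (ng n) (fun x => (x : ℂ)) ν).re ≤
      (ES n ζ ν).re := by
  have hh := hz.pos
  have hng : ∀ j, |ng n j| ≤ 6 := by
    intro j
    unfold ng
    rw [abs_of_nonneg (le_max_right _ _)]
    exact max_le ((neg_le_abs _).trans (hn j)) (by norm_num)
  have s1 := ((ES0 hν hn).mul_left h).sub ((ES0 hν hng).mul_left (1 / h - h))
  refine hasSum_le (fun j => ?_) s1 (ES_re hz hν hn)
  have hj : (0 : ℝ) < (j : ℝ) + 1 := by positivity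
  obtain ⟨f1, f2⟩ := formW (c := 2 * ((j : ℝ) + 1)) (by positivity) hz hν.cont hν.int
  set e0 := E0 (2 * ((j : ℝ) + 1)) ν
  set e1 := (EW (2 * ((j : ℝ) + 1)) ζ ν).re
  have q : 0 < 2 / ((j : ℝ) + 1) := by positivity
  unfold ng
  rcases le_total 0 (n (j + 1)) with h0 | h0
  · rw [max_eq_right (by linarith)]
    have := mul_le_mul_of_nonneg_left f1 (mul_nonneg q.le h0)
    linarith
  · rw [max_eq_left (by linarith)]
    have f3 : e1 ≤ 1 / h * e0 := by
      rw [one_div, inv_mul_eq_div, le_div_iff₀ hh]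
      linarith
    have := mul_le_mul_of_nonneg_left f3 (mul_nonneg q.le (neg_nonneg.mpr h0))
    linarith

/-! ### step 2: the negative part is small -/

theorem term_eq (a : ℝ) (j : ℕ) (w : ℝ) :
    (2 / ((j : ℝ) + 1) * a) * sy (2 * ((j : ℝ) + 1)) w =
      2 * (a * (1 / (((j : ℝ) + 1) ^ 2 + (Real.pi * w) ^ 2))) := by
  have h1 := sy_two (j + 1) (by omega) w
  push_cast at h1
  rw [h1]
  have : (j : ℝ) + 1 ≠ 0 := by positivity
  field_simp

theorem nP_bd (j : ℕ) : |nP j| ≤ 6 := by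
  have h1 := rr_low
  have h2 := rr_up
  unfold nP
  split <;> rw [abs_le] <;> constructor <;> linarith

theorem nM_bd (j : ℕ) : |nM j| ≤ 6 := by
  have h1 := rr_low
  have h2 := rr_up
  unfold nM
  split <;> rw [abs_le] <;> constructor <;> linarith

theorem nP_per (M i : ℕ) : nP (8 * M + i + 1) = nP (i + 1) := by
  unfold nP
  rw [show (8 * M + i + 1) % 8 = (i + 1) % 8 by omega]

theorem nM_per (M i : ℕ) : nM (8 * M + i + 1) = nM (i + 1) := by
  unfold nM
  rw [show (8 * M + i + 1) % 8 = (i + 1) % 8 by omega]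

theorem cast_a (M i : ℕ) : ((8 * M + i : ℕ) : ℝ) + 1 = (8 * (M : ℝ) + 4) + (i - 3) := by
  push_cast
  ring

/-- partial sums of the symbol, plus -/
theorem symP (M : ℕ) (w : ℝ) : 0 ≤ ∑ j ∈ Finset.range (8 * M),
    (0.2 * nP (j + 1) - ng nP (j + 1)) * (1 / (((j : ℝ) + 1) ^ 2 + (Real.pi * w) ^ 2)) := by
  have r1 := rr_low
  have r2 := rr_up
  induction M with
  | zero => simp
  | succ M ih =>
    rw [show 8 * (M + 1) = 8 * M + 8 by ring, Finset.sum_range_add]
    refine add_nonneg ih ?_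
    set X := (Real.pi * w) ^ 2 with hX
    have hX0 : 0 ≤ X := sq_nonneg _
    unfold ng
    simp only [nP_per, cast_a, Finset.sum_range_succ, Finset.sum_range_zero]
    have v1 : nP (0 + 1) = rr := rfl
    have v2 : nP (1 + 1) = 1 := rfl
    have v3 : nP (2 + 1) = -rr := rfl
    have v4 : nP (3 + 1) = 6 := rfl
    have v5 : nP (4 + 1) = -rr := rfl
    have v6 : nP (5 + 1) = 1 := rfl
    have v7 : nP (6 + 1) = rr := rfl
    have v8 : nP (7 + 1) = 0 := rfl
    rw [v1, v2, v3, v4, v5, v6, v7, v8, max_eq_right (show -rr ≤ 0 by linarith),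
      max_eq_right (show -(1 : ℝ) ≤ 0 by norm_num),
      max_eq_left (show (0 : ℝ) ≤ - -rr by linarith), max_eq_right (show -(6 : ℝ) ≤ 0 by norm_num),
      max_eq_right (show -(0 : ℝ) ≤ 0 by norm_num)]
    have hM : (0 : ℝ) ≤ M := Nat.cast_nonneg M
    set a : ℝ := 8 * (M : ℝ) + 4 with ha
    have key : 0 ≤ 0.2 * 0.7071 * (1 / ((a - 3) ^ 2 + X) + 1 / ((a + 3) ^ 2 + X)) +
      0.2 * (1 / ((a - 2) ^ 2 + X) + 1 / ((a + 2) ^ 2 + X)) + 1.2 * (1 / (a ^ 2 + X)) -
      1.2 * 0.70711 * (1 / ((a - 1) ^ 2 + X) + 1 / ((a + 1) ^ 2 + X)) := by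
      rcases Nat.eq_zero_or_pos M with h0 | h0
      · have : a = 4 := by rw [ha, h0]; norm_num
        rw [this]
        have := blk0P hX0
        norm_num at this ⊢
        exact this
      · apply blkP _ hX0
        have : (1 : ℝ) ≤ M := by exact_mod_cast h0
        rw [ha]
        linarith
    have p1 : 0 ≤ 1 / ((a - 3) ^ 2 + X) := by positivity
    have p7 : 0 ≤ 1 / ((a + 3) ^ 2 + X) := by positivity
    have p3 : 0 ≤ 1 / ((a - 1) ^ 2 + X) := by positivity
    have p5 : 0 ≤ 1 / ((a + 1) ^ 2 + X) := by positivity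
    have q1 := mul_le_mul_of_nonneg_right r1 p1
    have q7 := mul_le_mul_of_nonneg_right r1 p7
    have q3 := mul_le_mul_of_nonneg_right r2 p3
    have q5 := mul_le_mul_of_nonneg_right r2 p5
    push_cast
    rw [show a + (0 - 3) = a - 3 by ring, show a + (1 - 3) = a - 2 by ring,
      show a + (2 - 3) = a - 1 by ring, show a + (3 - 3) = a by ring,
      show a + (4 - 3) = a + 1 by ring, show a + (5 - 3) = a + 2 by ring,
      show a + (6 - 3) = a + 3 by ring]
    nlinarith [key, q1, q7, q3, q5]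

/-- partial sums of the symbol, minus -/
theorem symM (M : ℕ) (w : ℝ) {e : ℝ} (he : 0 < e) (he1 : e ≤ 0.01) :
    0.34 * (1 / ((8 * (M : ℝ)) ^ 2 + (if M = 0 then e else 0) + (Real.pi * w) ^ 2)) ≤
      0.34 * (1 / (e + (Real.pi * w) ^ 2)) + ∑ j ∈ Finset.range (8 * M),
    (0.34 * nM (j + 1) - ng nM (j + 1)) * (1 / (((j : ℝ) + 1) ^ 2 + (Real.pi * w) ^ 2)) := by
  have r1 := rr_low
  have r2 := rr_up
  induction M with
  | zero => simp
  | succ M ih =>
    rw [show 8 * (M + 1) = 8 * M + 8 by ring, Finset.sum_range_add, ← add_assoc]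
    refine le_trans ?_ (add_le_add_left ih _)
    set X := (Real.pi * w) ^ 2 with hX
    have hX0 : 0 ≤ X := sq_nonneg _
    unfold ng
    simp only [nM_per, cast_a, Finset.sum_range_succ, Finset.sum_range_zero]
    have v1 : nM (0 + 1) = -(3 * rr - 2) := rfl
    have v2 : nM (1 + 1) = -1 := rfl
    have v3 : nM (2 + 1) = 3 * rr + 2 := rfl
    have v4 : nM (3 + 1) = 0 := rfl
    have v5 : nM (4 + 1) = 3 * rr + 2 := rfl
    have v6 : nM (5 + 1) = -1 := rfl
    have v7 : nM (6 + 1) = -(3 * rr - 2) := rfl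
    have v8 : nM (7 + 1) = 2 := rfl
    rw [v1, v2, v3, v4, v5, v6, v7, v8, max_eq_left (show 0 ≤ - -(3 * rr - 2) by linarith),
      max_eq_left (show (0 : ℝ) ≤ - -1 by norm_num),
      max_eq_right (show -(3 * rr + 2) ≤ 0 by linarith),
      max_eq_right (show -(0 : ℝ) ≤ 0 by norm_num), max_eq_right (show -(2 : ℝ) ≤ 0 by norm_num)]
    have hM : (0 : ℝ) ≤ M := Nat.cast_nonneg M
    set a : ℝ := 8 * (M : ℝ) + 4 with ha
    have key : 0 ≤ 0.34 * (1 / ((a - 4) ^ 2 + (if M = 0 then e else 0) + X) +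
        1 / ((a + 4) ^ 2 + X)) +
      0.34 * 4.1213 * (1 / ((a - 1) ^ 2 + X) + 1 / ((a + 1) ^ 2 + X)) -
      1.34 * 0.12133 * (1 / ((a - 3) ^ 2 + X) + 1 / ((a + 3) ^ 2 + X)) -
      1.34 * (1 / ((a - 2) ^ 2 + X) + 1 / ((a + 2) ^ 2 + X)) := by
      rcases Nat.eq_zero_or_pos M with h0 | h0
      · have h4 : a = 4 := by rw [ha, h0]; norm_num
        rw [h4, if_pos h0]
        have := blk0M hX0
        have h5 : 1 / (0.01 + X) ≤ 1 / (e + X) :=
          one_div_le_one_div_of_le (by positivity) (by linarith)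
        norm_num at this h5 ⊢
        linarith
      · rw [if_neg (by omega), add_zero]
        apply blkM _ hX0
        have : (1 : ℝ) ≤ M := by exact_mod_cast h0
        rw [ha]
        linarith
    have p1 : 0 ≤ 1 / ((a - 3) ^ 2 + X) := by positivity
    have p7 : 0 ≤ 1 / ((a + 3) ^ 2 + X) := by positivity
    have p3 : 0 ≤ 1 / ((a - 1) ^ 2 + X) := by positivity
    have p5 : 0 ≤ 1 / ((a + 1) ^ 2 + X) := by positivity
    have q1 := mul_le_mul_of_nonneg_right (show 3 * rr - 2 ≤ 0.12133 by linarith) p1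
    have q7 := mul_le_mul_of_nonneg_right (show 3 * rr - 2 ≤ 0.12133 by linarith) p7
    have q3 := mul_le_mul_of_nonneg_right (show 4.1213 ≤ 3 * rr + 2 by linarith) p3
    have q5 := mul_le_mul_of_nonneg_right (show 4.1213 ≤ 3 * rr + 2 by linarith) p5
    push_cast
    rw [show a + (0 - 3) = a - 3 by ring, show a + (1 - 3) = a - 2 by ring,
      show a + (2 - 3) = a - 1 by ring, show a + (3 - 3) = a by ring,
      show a + (4 - 3) = a + 1 by ring, show a + (5 - 3) = a + 2 by ring,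
      show a + (6 - 3) = a + 3 by ring, show a + (7 - 3) = a + 4 by ring,
      show 8 * ((M : ℝ) + 1) = a + 4 by rw [ha]; ring, add_zero]
    rw [show 8 * (M : ℝ) = a - 4 by rw [ha]; ring]
    have p8 : 0 ≤ 1 / ((a + 4) ^ 2 + X) := by positivity
    nlinarith [key, q1, q7, q3, q5, p8]

end Pool.Agent.IST25
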