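import Pool.Agent.IST25.CertA
import Pool.Agent.IST25.FE

/-!
# The deformed exponential kernel on the whole line
-/

namespace Pool.Agent.IST25

open MeasureTheory Set Filter Topology

variable {c h : ℝ} {ζ g : ℝ → ℂ} {ν : ℝ → ℝ}

/-- the kernel -/
noncomputable def kc (c : ℝ) (ζ : ℝ → ℂ) (z : ℝ × ℝ) : ℂ :=
  if z.2 ≤ z.1 then Complex.exp (-(c * (ζ z.1 - ζ z.2))) else Complex.exp (-(c * (ζ z.2 - ζ z.1)))

/-- the integrand -/
noncomputable def FF (c : ℝ) (ζ : ℝ → ℂ) (ν : ℝ → ℝ) (z : ℝ × ℝ) : ℂ :=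
  kc c ζ z * ((ν z.1 : ℂ) * (ν z.2 : ℂ))

/-- the energy -/
noncomputable def EW (c : ℝ) (ζ : ℝ → ℂ) (ν : ℝ → ℝ) : ℂ := ∫ z : ℝ × ℝ, FF c ζ ν z

/-- curve with `h ≤ Re g`, `h |g|² ≤ Re g` -/
structure CrvH (h : ℝ) (ζ g : ℝ → ℂ) : Prop extends Crv ζ g where
  pos : 0 < h
  lo : ∀ x, h ≤ (g x).re
  up : ∀ x, h * Complex.normSq (g x) ≤ (g x).re

theorem kc_cont (hz : Continuous ζ) : Continuous (kc c ζ) := by
  unfold kc
  apply Continuous.if_le
  · fun_prop
  · fun_prop
  · exact continuous_snd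
  · exact continuous_fst
  · intro z hz'
    rw [hz']

theorem re_sub (hz : CrvH h ζ g) {x y : ℝ} (hxy : y ≤ x) : h * (x - y) ≤ (ζ x - ζ y).re := by
  have hd : ∀ x, HasDerivAt (fun x => (ζ x).re - h * x) ((g x).re - h) x := by
    intro x
    have h1 : HasDerivAt (fun x => (ζ x).re) (g x).re x := by
      have := Complex.reCLM.hasFDerivAt.comp_hasDerivAt x (hz.der x)
      simpa using! this
    have h2 : HasDerivAt (fun x : ℝ => h * x) h x := by
      simpa using (hasDerivAt_id x).const_mul h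
    exact h1.sub h2
  have hm : Monotone (fun x => (ζ x).re - h * x) := by
    apply monotone_of_deriv_nonneg (fun x => (hd x).differentiableAt)
    intro x
    rw [(hd x).deriv]
    linarith [hz.lo x]
  have := hm hxy
  simp only at this
  rw [Complex.sub_re]
  linarith

theorem kc_norm (hc : 0 ≤ c) (hz : CrvH h ζ g) (z : ℝ × ℝ) :
    ‖kc c ζ z‖ ≤ Real.exp (-(c * h * |z.1 - z.2|)) := by
  unfold kc
  split_ifs with h1
  · rw [Complex.norm_exp]
    apply Real.exp_le_exp.mpr
    rw [abs_of_nonneg (by linarith), Complex.neg_re, Complex.re_ofReal_mul]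
    have := mul_le_mul_of_nonneg_left (re_sub hz h1) hc
    linarith
  · push Not at h1
    rw [Complex.norm_exp]
    apply Real.exp_le_exp.mpr
    rw [abs_of_nonpos (by linarith), Complex.neg_re, Complex.re_ofReal_mul]
    have := mul_le_mul_of_nonneg_left (re_sub hz h1.le) hc
    linarith

theorem kc_norm1 (hc : 0 ≤ c) (hz : CrvH h ζ g) (z : ℝ × ℝ) : ‖kc c ζ z‖ ≤ 1 := by
  refine (kc_norm hc hz z).trans (Real.exp_le_one_iff.mpr ?_)
  have := hz.pos
  have : 0 ≤ c * h * |z.1 - z.2| := by positivity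
  linarith

theorem nn_int (hν : Integrable ν) :
    Integrable (fun z : ℝ × ℝ => ((ν z.1 : ℂ) * (ν z.2 : ℂ))) :=
  hν.ofReal.mul_prod hν.ofReal

theorem FF_int (hc : 0 ≤ c) (hz : CrvH h ζ g) (hν : Integrable ν) : Integrable (FF c ζ ν) := by
  unfold FF
  refine (nn_int hν).bdd_mul (c := 1) (kc_cont hz.ct).aestronglyMeasurable ?_
  filter_upwards with z
  exact kc_norm1 hc hz z

/-- the potential on an interval -/
theorem ph_eq {a b x : ℝ} (hx : x ∈ Icc a b) (hz : Crv ζ g) (hν : Continuous ν) :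
    ph a b c ζ ν x = ∫ y in a..b, kc c ζ (x, y) * ν y := by
  have hk : Continuous fun y => kc c ζ (x, y) * (ν y : ℂ) := by
    have := (kc_cont (c := c) hz.ct).comp (Continuous.prodMk_right x)
    exact this.mul (Complex.continuous_ofReal.comp hν)
  rw [← intervalIntegral.integral_add_adjacent_intervals (hk.intervalIntegrable a x)
    (hk.intervalIntegrable x b)]
  unfold ph
  congr 1
  · unfold Gl
    rw [← intervalIntegral.integral_const_mul]
    apply intervalIntegral.integral_congr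
    intro y hy
    rw [uIcc_of_le hx.1] at hy
    simp only [kc]
    rw [if_pos hy.2, ← mul_assoc, ← Complex.exp_add]
    congr 2
    ring
  · unfold Gr
    rw [← intervalIntegral.integral_const_mul]
    apply intervalIntegral.integral_congr
    intro y hy
    rw [uIcc_of_le hx.2] at hy
    simp only [kc]
    rcases eq_or_lt_of_le hy.1 with h1 | h1
    · rw [h1, if_pos le_rfl, ← mul_assoc, ← Complex.exp_add]
      congr 2
      ring
    · rw [if_neg (not_le.mpr h1), ← mul_assoc, ← Complex.exp_add]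
      congr 2
      ring

theorem EE_eq {a b : ℝ} (hab : a ≤ b) (hc : 0 ≤ c) (hz : CrvH h ζ g) (hν : Continuous ν)
    (hi : Integrable ν) :
    EE a b c ζ ν = ∫ z in Ioc a b ×ˢ Ioc a b, FF c ζ ν z := by
  rw [Measure.volume_eq_prod, setIntegral_prod _ (by
    rw [← Measure.volume_eq_prod]
    exact (FF_int hc hz hi).integrableOn)]
  unfold EE
  rw [intervalIntegral.integral_of_le hab]
  apply setIntegral_congr_fun measurableSet_Ioc
  intro x hx
  simp only
  rw [ph_eq ⟨hx.1.le, hx.2⟩ hz.toCrv hν, intervalIntegral.integral_of_le hab,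
    ← integral_mul_const]
  apply setIntegral_congr_fun measurableSet_Ioc
  intro y _
  simp only [FF]
  ring

theorem EE_lim (hc : 0 ≤ c) (hz : CrvH h ζ g) (hν : Continuous ν) (hi : Integrable ν) :
    Tendsto (fun n : ℕ => EE (-n) n c ζ ν) atTop (𝓝 (EW c ζ ν)) := by
  have e : ∀ n : ℕ, EE (-n) n c ζ ν = ∫ z in Ioc (-(n : ℝ)) n ×ˢ Ioc (-(n : ℝ)) n, FF c ζ ν z :=
    fun n => EE_eq (by linarith [show (0 : ℝ) ≤ n from Nat.cast_nonneg n]) hc hz hν hi
  simp_rw [e]
  have hm : Monotone (fun n : ℕ => Ioc (-(n : ℝ)) n ×ˢ Ioc (-(n : ℝ)) n) := by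
    intro m n hmn
    have : (m : ℝ) ≤ n := by exact_mod_cast hmn
    exact prod_mono (Ioc_subset_Ioc (by linarith) this) (Ioc_subset_Ioc (by linarith) this)
  have hu : (⋃ n : ℕ, Ioc (-(n : ℝ)) n ×ˢ Ioc (-(n : ℝ)) n) = univ := by
    rw [eq_univ_iff_forall]
    intro z
    obtain ⟨n, hn⟩ := exists_nat_gt (max |z.1| |z.2|)
    rw [mem_iUnion]
    refine ⟨n, ?_⟩
    have h1 : |z.1| < n := lt_of_le_of_lt (le_max_left _ _) hn
    have h2 : |z.2| < n := lt_of_le_of_lt (le_max_right _ _) hn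
    rw [abs_lt] at h1 h2
    exact ⟨⟨h1.1, h1.2.le⟩, ⟨h2.1, h2.2.le⟩⟩
  have h := tendsto_setIntegral_of_monotone (f := FF c ζ ν)
    (fun n => (measurableSet_Ioc.prod measurableSet_Ioc)) hm (by
      rw [hu]
      exact (FF_int hc hz hi).integrableOn)
  rw [hu, setIntegral_univ] at h
  exact h

/-- the straight line -/
theorem crvH_id {h : ℝ} (h0 : 0 < h) (h1 : h ≤ 1) : CrvH h (fun x => (x : ℂ)) (fun _ => (1 : ℂ)) where
  toCrv := crv_id
  pos := h0
  lo := fun _ => by simpa using h1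
  up := fun _ => by simpa using h1

theorem kc_id (z : ℝ × ℝ) : kc c (fun x => (x : ℂ)) z = (ek c (z.1 - z.2) : ℂ) := by
  unfold kc ek
  split_ifs with h1
  · rw [abs_of_nonneg (by linarith)]
    push_cast
    rfl
  · push Not at h1
    rw [abs_of_nonpos (by linarith)]
    push_cast
    congr 1
    ring

theorem EW_id (hc : 0 ≤ c) (hi : Integrable ν) : EW c (fun x => (x : ℂ)) ν = (E0 c ν : ℂ) := by
  have hI := FF_int (c := c) hc (crvH_id one_pos le_rfl) hi
  unfold EW
  rw [Measure.volume_eq_prod] at hI ⊢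
  rw [integral_prod _ hI]
  unfold E0
  rw [← integral_complex_ofReal]
  congr 1
  ext x
  rw [Complex.ofReal_mul, ← integral_complex_ofReal, ← integral_mul_const]
  congr 1
  ext y
  unfold FF
  rw [kc_id]
  push_cast
  ring

theorem le_one (hz : CrvH h ζ g) : h ≤ 1 := by
  have k1 := hz.lo 0
  have k2 := hz.up 0
  have hh := hz.pos
  rw [Complex.normSq_apply] at k2
  by_contra hc'
  push Not at hc'
  nlinarith [mul_pos hh hh, mul_self_nonneg (g 0).im, mul_nonneg hh.le (mul_self_nonneg (g 0).im),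
    mul_le_mul k1 k1 hh.le (by linarith)]

/-- **one kernel, whole line** -/
theorem formW (hc : 0 ≤ c) (hz : CrvH h ζ g) (hν : Continuous ν) (hi : Integrable ν) :
    h * E0 c ν ≤ (EW c ζ ν).re ∧ h * (EW c ζ ν).re ≤ E0 c ν := by
  have l1 := (Complex.continuous_re.tendsto _).comp (EE_lim (c := c) hc hz hν hi)
  have l0 := (Complex.continuous_re.tendsto _).comp
    (EE_lim (c := c) hc (crvH_id one_pos le_rfl) hν hi)
  rw [EW_id hc hi, Complex.ofReal_re] at l0
  have hf : ∀ n : ℕ, _ := fun n : ℕ => formA (a := -(n : ℝ)) (b := n) (h := h)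
    (by linarith [show (0 : ℝ) ≤ n from Nat.cast_nonneg n]) hc hz.toCrv hν hz.pos
    (fun x _ => hz.lo x) (fun x _ => hz.up x)
  exact ⟨le_of_tendsto_of_tendsto' (l0.const_mul h) l1 (fun n => (hf n).1),
    le_of_tendsto_of_tendsto' (l1.const_mul h) l0 (fun n => (hf n).2)⟩

end Pool.Agent.IST25
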